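import Mathlib

/-!
# Fodor's lemma and disjoint tails of ladder systems on non-reflecting stationary sets
-/

set_option autoImplicit false

open Set Cardinal Order

namespace Pool.Agent.Helper93.EC

universe u

variable {α : Type u} [LinearOrder α] [WellFoundedLT α]

/-- A set of size less than the cofinality is bounded. -/
theorem exists_upper {α : Type u} [LinearOrder α] {t : Set α} (ht : #t < cof α) :
    ∃ b, ∀ x ∈ t, x ≤ b := by
  have h : ¬ IsCofinal t := fun h => (cof_le h).not_gt ht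
  rw [not_isCofinal_iff] at h
  obtain ⟨b, hb⟩ := h
  exact ⟨b, fun x hx => le_of_lt (by simpa using hb x hx)⟩

theorem exists_upper_seq {α : Type u} [LinearOrder α] (hα : ℵ₀ < cof α) (g : ℕ → α) :
    ∃ b, ∀ n, g n ≤ b := by
  obtain ⟨b, hb⟩ := exists_upper (t := Set.range g) (by
    refine lt_of_le_of_lt ?_ hα
    exact (Set.countable_range g).le_aleph0)
  exact ⟨b, fun n => hb _ ⟨n, rfl⟩⟩

/-- Every nonempty bounded set in a well-order has a least upper bound. -/
theorem exists_lub {t : Set α} (hb : ∃ b, ∀ x ∈ t, x ≤ b) : ∃ x, IsLUB t x := by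
  have hne : (upperBounds t).Nonempty := by
    obtain ⟨b, hb⟩ := hb
    exact ⟨b, fun x hx => hb x hx⟩
  obtain ⟨x, hx, hmin⟩ := wellFounded_lt.has_min (upperBounds t) hne
  exact ⟨x, hx, fun y hy => not_lt.1 (hmin y hy)⟩

/-- The diagonal intersection of clubs is a club. -/
theorem diag_club (hreg : ∀ i : α, #(Set.Iic i) < cof α) (hα : ℵ₀ < cof α)
    (C : α → Set α) (hC : ∀ i, IsClub (C i)) :
    IsClub {δ : α | ∀ i < δ, δ ∈ C i} := by
  have hmax : ∀ a : α, ∃ b, a < b := by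
    intro a
    by_contra h
    push Not at h
    have h1 : IsCofinal ({a} : Set α) := fun x => ⟨a, rfl, h x⟩
    have h2 := cof_le h1
    rw [mk_singleton] at h2
    exact absurd (hα.trans_le h2) (not_lt.2 Cardinal.one_lt_aleph0.le)
  refine ⟨?_, ?_⟩
  · intro t ht hne hdir x hx i hi
    have h1 : ∃ y ∈ t, i < y := by
      by_contra h
      push Not at h
      exact absurd (hx.2 h) (not_le.2 hi)
    obtain ⟨y, hy, hiy⟩ := h1
    refine (hC i).isLUB_mem (t := {z | z ∈ t ∧ i < z}) ?_ ⟨y, hy, hiy⟩ ?_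
    · rintro z ⟨hz, hiz⟩
      exact ht hz i hiz
    · refine ⟨fun z hz => hx.1 hz.1, fun b hb => hx.2 fun z hz => ?_⟩
      rcases le_or_gt z i with h | h
      · exact h.trans (hiy.le.trans (hb ⟨hy, hiy⟩))
      · exact hb ⟨hz, h⟩
  · intro a
    have step : ∀ b : α, ∃ c, b < c ∧ ∀ i ≤ b, c ∈ C i := by
      intro b
      have h1 : IsClub (⋂ i : Set.Iic b, C i) := by
        refine IsClub.iInter hα.ne' ?_ (fun i => hC i)
        simpa using hreg b
      obtain ⟨b', hb'⟩ := hmax b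
      obtain ⟨c, hc, hcb⟩ := h1.isCofinal b'
      refine ⟨c, hb'.trans_le hcb, fun i hi => ?_⟩
      exact mem_iInter.1 hc ⟨i, hi⟩
    choose nx hnx1 hnx2 using step
    let g : ℕ → α := fun n => Nat.rec a (fun _ x => nx x) n
    have hg : ∀ n, g (n + 1) = nx (g n) := fun n => rfl
    have hmono : StrictMono g := strictMono_nat_of_lt_succ fun n => by
      rw [hg]
      exact hnx1 _
    obtain ⟨x, hx⟩ := exists_lub (t := Set.range g) (by
      obtain ⟨b, hb⟩ := exists_upper_seq hα g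
      exact ⟨b, by rintro _ ⟨n, rfl⟩; exact hb n⟩)
    refine ⟨x, fun i hi => ?_, hx.1 ⟨0, rfl⟩⟩
    have h1 : ∃ n, i < g n := by
      by_contra! h
      exact absurd (hx.2 (by rintro _ ⟨n, rfl⟩; exact h n)) (not_le.2 hi)
    obtain ⟨n, hn⟩ := h1
    refine (hC i).isLUB_mem (t := Set.range fun m => g (n + 1 + m)) ?_ ⟨_, 0, rfl⟩ ?_
    · rintro _ ⟨m, rfl⟩
      have h2 : n + 1 + m = (n + m) + 1 := by omega
      change g (n + 1 + m) ∈ C i
      rw [h2, hg]
      exact hnx2 _ _ (hn.le.trans (hmono.monotone (by omega)))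
    · refine ⟨?_, fun b hb => hx.2 ?_⟩
      · rintro _ ⟨m, rfl⟩
        exact hx.1 ⟨_, rfl⟩
      · rintro _ ⟨m, rfl⟩
        exact (hmono.monotone (by omega : m ≤ n + 1 + m)).trans (hb ⟨m, rfl⟩)

/-- Fodor's pressing down lemma. -/
theorem fodor (hreg : ∀ i : α, #(Set.Iic i) < cof α) (hα : ℵ₀ < cof α)
    {S : Set α} (hS : IsStationary S) (h : α → α) (hh : ∀ δ ∈ S, h δ < δ) :
    ∃ i, IsStationary {δ | δ ∈ S ∧ h δ = i} := by
  by_contra hcon
  push Not at hcon
  have h1 : ∀ i, ∃ t, IsClub t ∧ Disjoint {δ | δ ∈ S ∧ h δ = i} t := fun i =>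
    not_isStationary_iff.1 (hcon i)
  choose C hC hd using h1
  obtain ⟨δ, hδS, hδ⟩ := hS (diag_club hreg hα C hC)
  exact Set.disjoint_left.1 (hd (h δ)) ⟨hδS, rfl⟩ (hδ (h δ) (hh δ hδS))

/-- A ladder of points outside `S` below a point of countable cofinality. -/
theorem exists_ladder {S : Set α} (hS : ∀ δ ∈ S, cof (Set.Iio δ) = ℵ₀) {a : α}
    (ha : cof (Set.Iio a) = ℵ₀) :
    ∃ l : ℕ → α, StrictMono l ∧ (∀ n, l n < a) ∧ (∀ n, l n ∉ S) ∧ ∀ x < a, ∃ n, x < l n := by
  obtain ⟨C, hC, hCc⟩ := exists_cof_eq (Set.Iio a)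
  rw [ha] at hCc
  have hcount : C.Countable := by
    rw [← le_aleph0_iff_set_countable, hCc]
  have hne0 : cof (Set.Iio a) ≠ 0 := by
    rw [ha]
    exact aleph0_ne_zero
  have hne : C.Nonempty := by
    have : Nonempty (Set.Iio a) := cof_ne_zero_iff.1 hne0
    exact hC.nonempty
  obtain ⟨c, hc⟩ := hcount.exists_eq_range hne
  have hnomax : ∀ x < a, ∃ y, x < y ∧ y < a := by
    intro x hx
    by_contra h
    push Not at h
    have h1 : cof (Set.Iio a) = 1 := cof_eq_one_iff.2 ⟨⟨x, hx⟩, fun y => by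
      rcases le_or_gt y.1 x with h2 | h2
      · exact h2
      · exact absurd y.2 (not_lt.2 (h _ h2))⟩
    rw [ha] at h1
    exact absurd h1 (Cardinal.one_lt_aleph0.ne')
  have hsucc : ∀ x, ∃ y, x < a → (x < y ∧ y < a ∧ y ∉ S) := by
    intro x
    by_cases hx : x < a
    · obtain ⟨y, hxy, hmin⟩ := wellFounded_lt.has_min {y | x < y} (by
        obtain ⟨y, hy, -⟩ := hnomax x hx
        exact ⟨y, hy⟩)
      refine ⟨y, fun _ => ⟨hxy, ?_, fun hyS => ?_⟩⟩
      · obtain ⟨z, hz1, hz2⟩ := hnomax x hx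
        exact (not_lt.1 (hmin z hz1)).trans_lt hz2
      · have h1 : cof (Set.Iio y) = 1 := cof_eq_one_iff.2 ⟨⟨x, hxy⟩, fun z => by
          rcases le_or_gt z.1 x with h2 | h2
          · exact h2
          · exact absurd z.2 (hmin _ h2)⟩
        rw [hS y hyS] at h1
        exact absurd h1 (Cardinal.one_lt_aleph0.ne')
    · exact ⟨x, fun h => absurd h hx⟩
  choose s hs using hsucc
  let g : ℕ → α := fun n => Nat.rec (s (c 0)) (fun n x => s (max x (c (n + 1)))) n
  have hg0 : g 0 = s (c 0) := rfl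
  have hg : ∀ n, g (n + 1) = s (max (g n) (c (n + 1))) := fun n => rfl
  have hlt : ∀ n, g n < a := by
    intro n
    induction n with
    | zero => exact (hs _ (c 0).2).2.1
    | succ n ih =>
      rw [hg]
      exact (hs _ (max_lt ih (c (n + 1)).2)).2.1
  refine ⟨g, strictMono_nat_of_lt_succ fun n => ?_, hlt, fun n => ?_, fun x hx => ?_⟩
  · rw [hg]
    exact (le_max_left _ _).trans_lt (hs _ (max_lt (hlt n) (c (n + 1)).2)).1
  · cases n with
    | zero => exact (hs _ (c 0).2).2.2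
    | succ n =>
      rw [hg]
      exact (hs _ (max_lt (hlt n) (c (n + 1)).2)).2.2
  · obtain ⟨y, hy, hxy⟩ := hC ⟨x, hx⟩
    rw [hc] at hy
    obtain ⟨n, rfl⟩ := hy
    refine ⟨n, lt_of_le_of_lt hxy ?_⟩
    cases n with
    | zero => exact (hs _ (c 0).2).1
    | succ n =>
      rw [hg]
      exact (le_max_right _ _).trans_lt (hs _ (max_lt (hlt n) (c (n + 1)).2)).1

/-- A system of ladders on `S`. -/
structure Ladder (S : Set α) (l : α → ℕ → α) : Prop where
  mono : ∀ δ ∈ S, StrictMono (l δ)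
  lt : ∀ δ ∈ S, ∀ n, l δ n < δ
  cof : ∀ δ ∈ S, ∀ x < δ, ∃ n, x < l δ n
  not_mem : ∀ δ ∈ S, ∀ n, l δ n ∉ S

theorem exists_ladder_system {S : Set α} (hS : ∀ δ ∈ S, Order.cof (Set.Iio δ) = ℵ₀) :
    ∃ l : α → ℕ → α, Ladder S l := by
  have h : ∀ δ, ∃ l : ℕ → α, δ ∈ S → (StrictMono l ∧ (∀ n, l n < δ) ∧ (∀ n, l n ∉ S) ∧
      ∀ x < δ, ∃ n, x < l n) := by
    intro δ
    by_cases hδ : δ ∈ S
    · obtain ⟨l, hl⟩ := exists_ladder hS (hS δ hδ)
      exact ⟨l, fun _ => hl⟩
    · exact ⟨fun _ => δ, fun h => absurd h hδ⟩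
  choose l hl using h
  exact ⟨l, fun δ h => (hl δ h).1, fun δ h => (hl δ h).2.1, fun δ h => (hl δ h).2.2.2,
    fun δ h => (hl δ h).2.2.1⟩

/-- Tails of the ladders of points `≤ a` are pairwise disjoint. -/
def Tails (S : Set α) (l : α → ℕ → α) (a : α) (f : α → ℕ) : Prop :=
  ∀ δ ∈ S, ∀ δ' ∈ S, δ ≤ a → δ' ≤ a → δ ≠ δ' → ∀ n ≥ f δ, ∀ m ≥ f δ', l δ n ≠ l δ' m

theorem tails_step {S : Set α} {l : α → ℕ → α} (hl : Ladder S l) {a : α} {C : Set α}
    (hC1 : ∀ δ ∈ S, δ < a → ∃ x < δ, ∀ c ∈ C, c < δ → c ≤ x)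
    (hC2 : ∀ δ < a, ∃ c ∈ C, δ < c) (hC3 : ∀ c ∈ C, c < a) (hC4 : ∀ c ∈ C, c ∉ S)
    (ih : ∀ c < a, ∃ f, Tails S l c f) :
    ∃ f : α → ℕ, (∀ δ ∈ S, ∀ δ' ∈ S, δ < a → δ' < a → δ ≠ δ' →
      ∀ n ≥ f δ, ∀ m ≥ f δ', l δ n ≠ l δ' m) ∧
      ∀ δ ∈ S, δ < a → ∀ n ≥ f δ, ∀ c ∈ C, l δ n ≠ c := by
  classical
  -- the next element of C
  have hq : ∀ δ, ∃ q, δ < a → (q ∈ C ∧ δ < q ∧ ∀ c ∈ C, δ < c → q ≤ c) := by
    intro δ
    by_cases hδ : δ < a
    · obtain ⟨q, ⟨hq1, hq2⟩, hmin⟩ := wellFounded_lt.has_min {c | c ∈ C ∧ δ < c} (by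
        obtain ⟨c, hc⟩ := hC2 δ hδ
        exact ⟨c, hc⟩)
      exact ⟨q, fun _ => ⟨hq1, hq2, fun c hc hδc => not_lt.1 (hmin c ⟨hc, hδc⟩)⟩⟩
    · exact ⟨δ, fun h => absurd h hδ⟩
  choose q hq using hq
  have hF : ∀ c, ∃ f, c < a → Tails S l c f := by
    intro c
    by_cases hc : c < a
    · obtain ⟨f, hf⟩ := ih c hc
      exact ⟨f, fun _ => hf⟩
    · exact ⟨fun _ => 0, fun h => absurd h hc⟩
  choose F hF using hF
  have hN : ∀ δ, ∃ N : ℕ, δ ∈ S → δ < a → ∀ c ∈ C, c < δ → ∀ n ≥ N, c < l δ n := by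
    intro δ
    by_cases h : δ ∈ S ∧ δ < a
    · obtain ⟨x, hx, hx2⟩ := hC1 δ h.1 h.2
      obtain ⟨N, hN⟩ := hl.cof δ h.1 x hx
      exact ⟨N, fun _ _ c hc hcδ n hn =>
        (hx2 c hc hcδ).trans_lt (hN.trans_le ((hl.mono δ h.1).monotone hn))⟩
    · exact ⟨0, fun h1 h2 => absurd ⟨h1, h2⟩ h⟩
  choose N hN using hN
  refine ⟨fun δ => max (F (q δ) δ) (N δ), ?_, ?_⟩
  · have key : ∀ δ ∈ S, ∀ δ' ∈ S, δ < a → δ' < a → q δ < q δ' →
        ∀ n, ∀ m ≥ max (F (q δ') δ') (N δ'), l δ n < l δ' m := by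
      intro δ hδ δ' hδ' hδa hδa' hqq n m hm
      obtain ⟨h1, h2, h3⟩ := hq δ hδa
      obtain ⟨h1', h2', h3'⟩ := hq δ' hδa'
      have h4 : q δ ≤ δ' := by
        by_contra h
        exact absurd (h3' _ h1 (not_le.1 h)) (not_le.2 hqq)
      have h5 : q δ ≠ δ' := fun h => hC4 _ h1 (h ▸ hδ')
      have h6 : q δ < l δ' m :=
        hN δ' hδ' hδa' _ h1 (lt_of_le_of_ne h4 h5) m (le_trans (le_max_right _ _) hm)
      exact (hl.lt δ hδ n).trans (h2.trans h6)
    intro δ hδ δ' hδ' hδa hδa' hne n hn m hm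
    rcases lt_trichotomy (q δ) (q δ') with h | h | h
    · exact (key δ hδ δ' hδ' hδa hδa' h n m hm).ne
    · have h2 := hq δ hδa
      have h2' := hq δ' hδa'
      have h3 := hF (q δ) (hC3 _ h2.1) δ hδ δ' hδ' h2.2.1.le (h ▸ h2'.2.1.le) hne n
        (le_trans (le_max_left _ _) hn) m
      refine h3 (le_trans ?_ hm)
      change F (q δ) δ' ≤ max (F (q δ') δ') (N δ')
      rw [h]
      exact le_max_left _ _
    · exact (key δ' hδ' δ hδ hδa' hδa h m n hn).ne'
  · intro δ hδ hδa n hn c hc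
    rcases lt_or_ge c δ with h | h
    · exact (hN δ hδ hδa c hc h n (le_trans (le_max_right _ _) hn)).ne'
    · exact ((hl.lt δ hδ n).trans_le h).ne

/-- Disjoint tails below every point, for a non-reflecting set. -/
theorem exists_tails {S : Set α} (hS : ∀ δ ∈ S, Order.cof (Set.Iio δ) = ℵ₀)
    (hnr : ∀ a : α, ℵ₀ < Order.cof (Set.Iio a) →
      ¬ IsStationary {x : Set.Iio a | (x : α) ∈ S})
    {l : α → ℕ → α} (hl : Ladder S l) (a : α) : ∃ f, Tails S l a f := by
  refine wellFounded_lt.induction (C := fun a => ∃ f, Tails S l a f) a ?_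
  intro a ih
  · by_cases hc : Order.cof (Set.Iio a) = ℵ₀
    · -- countable cofinality
      obtain ⟨l0, h1, h2, h3, h4⟩ : ∃ l0 : ℕ → α, StrictMono l0 ∧ (∀ n, l0 n < a) ∧
          (∀ n, l0 n ∉ S) ∧ (∀ x < a, ∃ n, x < l0 n) ∧ (a ∈ S → l0 = l a) := by
        by_cases ha : a ∈ S
        · exact ⟨l a, hl.mono a ha, hl.lt a ha, hl.not_mem a ha, hl.cof a ha, fun _ => rfl⟩
        · obtain ⟨l0, h1, h2, h3, h4⟩ := exists_ladder hS hc
          exact ⟨l0, h1, h2, h3, h4, fun h => absurd h ha⟩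
      obtain ⟨h4, h5⟩ := h4
      obtain ⟨f, hf1, hf2⟩ := tails_step hl (a := a) (C := Set.range l0) (by
          intro δ hδ hδa
          obtain ⟨n, hn⟩ := h4 δ hδa
          -- finitely many elements of the range below δ
          by_cases h0 : ∃ k, l0 k < δ
          · obtain ⟨k0, hk0⟩ := h0
            have hfin : (Finset.range n).Nonempty := by
              refine ⟨k0, Finset.mem_range.2 ?_⟩
              by_contra h
              exact absurd ((hn.trans_le (h1.monotone (not_lt.1 h))).trans hk0) (lt_irrefl _)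
            have hex : ∃ k, l0 k < δ ∧ ∀ k', l0 k' < δ → k' ≤ k := by
              have hb : ∀ k, l0 k < δ → k ≤ n := by
                intro k hk
                by_contra h
                exact absurd ((hn.trans (h1 (not_le.1 h))).trans hk) (lt_irrefl _)
              let k := Nat.findGreatest (fun k => l0 k < δ) n
              refine ⟨k, Nat.findGreatest_spec (P := fun k => l0 k < δ) (hb k0 hk0) hk0, ?_⟩
              intro k' hk'
              exact Nat.le_findGreatest (hb k' hk') hk'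
            obtain ⟨k, hk1, hk2⟩ := hex
            refine ⟨l0 k, hk1, ?_⟩
            rintro _ ⟨k', rfl⟩ hk'
            exact h1.monotone (hk2 k' hk')
          · push Not at h0
            -- no element of the range below δ: take any x < δ
            have hne : (Set.Iio δ).Nonempty := by
              have : Order.cof (Set.Iio δ) ≠ 0 := by
                rw [hS δ hδ]
                exact aleph0_ne_zero
              have h := cof_ne_zero_iff.1 this
              exact Set.nonempty_coe_sort.1 h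
            obtain ⟨x, hx⟩ := hne
            refine ⟨x, hx, ?_⟩
            rintro _ ⟨k, rfl⟩ hk
            exact absurd hk (not_lt.2 (h0 k)))
        (by
          intro δ hδ
          obtain ⟨n, hn⟩ := h4 δ hδ
          exact ⟨_, ⟨n, rfl⟩, hn⟩)
        (by rintro _ ⟨n, rfl⟩; exact h2 n) (by rintro _ ⟨n, rfl⟩; exact h3 n) ih
      classical
      refine ⟨fun δ => if δ = a then 0 else f δ, ?_⟩
      intro δ hδ δ' hδ' hδa hδa' hne n hn m hm
      by_cases e1 : δ = a
      · subst e1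
        have e2 : δ' ≠ δ := fun h => hne h.symm
        have hlt : δ' < δ := lt_of_le_of_ne hδa' e2
        have hm' : m ≥ f δ' := by simpa [e2] using hm
        have := hf2 δ' hδ' hlt m hm' (l δ n) ⟨n, by rw [h5 hδ]⟩
        exact this.symm
      · by_cases e2 : δ' = a
        · subst e2
          have hlt : δ < δ' := lt_of_le_of_ne hδa e1
          have hn' : n ≥ f δ := by simpa [e1] using hn
          exact hf2 δ hδ hlt n hn' (l δ' m) ⟨m, by rw [h5 hδ']⟩
        · have hn' : n ≥ f δ := by simpa [e1] using hn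
          have hm' : m ≥ f δ' := by simpa [e2] using hm
          exact hf1 δ hδ δ' hδ' (lt_of_le_of_ne hδa e1) (lt_of_le_of_ne hδa' e2) hne n hn' m hm'
    · have haS : a ∉ S := fun h => hc (hS a h)
      by_cases hb : ∃ b < a, ∀ x < a, x ≤ b
      · obtain ⟨b, hb, hb2⟩ := hb
        obtain ⟨f, hf⟩ := ih b hb
        refine ⟨f, ?_⟩
        intro δ hδ δ' hδ' hδa hδa'
        have h1 : δ < a := lt_of_le_of_ne hδa fun h => haS (h ▸ hδ)
        have h2 : δ' < a := lt_of_le_of_ne hδa' fun h => haS (h ▸ hδ')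
        exact hf δ hδ δ' hδ' (hb2 δ h1) (hb2 δ' h2)
      · push Not at hb
        by_cases hemp : ∃ x, x < a
        · -- uncountable cofinality
          have hgt : ℵ₀ < Order.cof (Set.Iio a) := by
            refine lt_of_le_of_ne ?_ (Ne.symm hc)
            obtain ⟨x, hx⟩ := hemp
            haveI : Nonempty (Set.Iio a) := ⟨⟨x, hx⟩⟩
            haveI : NoMaxOrder (Set.Iio a) := ⟨fun y => by
              obtain ⟨z, hz1, hz2⟩ := hb y.1 y.2
              exact ⟨⟨z, hz1⟩, hz2⟩⟩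
            exact aleph0_le_cof
          obtain ⟨T, hT, hdis⟩ := not_isStationary_iff.1 (hnr a hgt)
          obtain ⟨f, hf1, -⟩ := tails_step hl (a := a) (C := Subtype.val '' T) (by
              intro δ hδ hδa
              by_contra hcon
              push Not at hcon
              -- T is cofinal below δ, hence δ ∈ T
              have hmem : (⟨δ, hδa⟩ : Set.Iio a) ∈ T := by
                have hne : (Set.Iio δ).Nonempty := by
                  have : Order.cof (Set.Iio δ) ≠ 0 := by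
                    rw [hS δ hδ]
                    exact aleph0_ne_zero
                  exact Set.nonempty_coe_sort.1 (cof_ne_zero_iff.1 this)
                obtain ⟨x, hx⟩ := hne
                refine hT.isLUB_mem (t := {z : Set.Iio a | z ∈ T ∧ z.1 < δ}) (fun z hz => hz.1)
                  ?_ ?_
                · obtain ⟨c, ⟨z, hz, rfl⟩, hc1, hc2⟩ := hcon x hx
                  exact ⟨z, hz, hc1⟩
                · refine ⟨fun z hz => hz.2.le, fun b hb' => ?_⟩
                  by_contra hlt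
                  have hlt' : b.1 < δ := not_le.1 hlt
                  obtain ⟨c, ⟨z, hz, rfl⟩, hc1, hc2⟩ := hcon b.1 hlt'
                  exact absurd (hb' ⟨hz, hc1⟩) (not_le.2 hc2)
              exact Set.disjoint_left.1 hdis (show (⟨δ, hδa⟩ : Set.Iio a) ∈ {x : Set.Iio a |
                (x : α) ∈ S} from hδ) hmem)
            (by
              intro δ hδ
              obtain ⟨z, hz1, hz2⟩ := hb δ hδ
              obtain ⟨c, hc1, hc2⟩ := hT.isCofinal ⟨z, hz1⟩
              exact ⟨c, ⟨c, hc1, rfl⟩, hz2.trans_le hc2⟩)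
            (by rintro _ ⟨c, -, rfl⟩; exact c.2)
            (by
              rintro _ ⟨c, hc, rfl⟩ hcS
              exact Set.disjoint_left.1 hdis (show c ∈ {x : Set.Iio a | (x : α) ∈ S} from hcS) hc)
            ih
          refine ⟨f, ?_⟩
          intro δ hδ δ' hδ' hδa hδa'
          have h1 : δ < a := lt_of_le_of_ne hδa fun h => haS (h ▸ hδ)
          have h2 : δ' < a := lt_of_le_of_ne hδa' fun h => haS (h ▸ hδ')
          exact hf1 δ hδ δ' hδ' h1 h2
        · push Not at hemp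
          refine ⟨fun _ => 0, ?_⟩
          intro δ hδ δ' hδ' hδa hδa' hne
          exact absurd ((le_antisymm hδa (hemp δ)).trans (le_antisymm hδa' (hemp δ')).symm) hne

end Pool.Agent.Helper93.EC
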