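import Pool.Agent.Helper93.EC.Tight

/-!
# The embedding obtained by integrating
-/

set_option autoImplicit false

open Set Cardinal Topology Filter MeasureTheory

namespace Pool.Agent.Helper93.EC

theorem tendsto_cofinite_zero_iff {J : Type} {v : J → ℝ} :
    Tendsto v cofinite (nhds 0) ↔ ∀ ε : ℝ, 0 < ε → {j | ε ≤ |v j|}.Finite := by
  rw [Metric.tendsto_nhds]
  refine forall₂_congr fun ε _ => ?_
  rw [Filter.eventually_cofinite]
  have : {j | ¬ dist (v j) 0 < ε} = {j | ε ≤ |v j|} := by
    ext j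
    simp
  rw [this]

theorem reindex {X : Type} [TopologicalSpace X] {A : Set X} (hE : EmbedsC0 (closure A)) :
    ∃ e : X → X × ℕ → ℝ, (∀ x, Tendsto (e x) cofinite (nhds 0)) ∧ (∀ x j, |e x j| ≤ 1) ∧
      (∀ j, ContinuousOn (fun x => e x j) (closure A)) ∧
      (∀ x ∈ closure A, ∀ y ∈ closure A, e x = e y → x = y) ∧
      (∀ x a n, e x (a, n) ≠ 0 → a ∈ A) := by
  classical
  obtain ⟨Γ, f, hfc, hfi, hf0, M, hM⟩ := hE
  have hL : 0 < |M| + 1 := by positivity
  have hc : ∀ y : closure A, ∃ c : Γ → ℕ, InjOn c {γ | f y γ ≠ 0} := fun y =>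
    Set.countable_iff_exists_injOn.1 (countable_support (hf0 y))
  choose c hc using hc
  have ha : ∀ γ : {γ // ∃ y, f y γ ≠ 0}, ∃ a : X, ∃ h : a ∈ A, f ⟨a, subset_closure h⟩ γ ≠ 0 := by
    rintro ⟨γ, y, hy⟩
    have hopen : IsOpen {y : closure A | f y γ ≠ 0} :=
      isOpen_ne.preimage ((continuous_apply γ).comp hfc)
    obtain ⟨U, hU, hUeq⟩ := isOpen_induced_iff.1 hopen
    have hyU : (y : X) ∈ U := by
      have : y ∈ Subtype.val ⁻¹' U := by
        rw [hUeq]
        exact hy
      exact this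
    obtain ⟨a, ha1, ha2⟩ := mem_closure_iff.1 y.2 U hU hyU
    refine ⟨a, ha2, ?_⟩
    have : (⟨a, subset_closure ha2⟩ : closure A) ∈ Subtype.val ⁻¹' U := ha1
    rw [hUeq] at this
    exact this
  choose a haA ha using ha
  let code : {γ // ∃ y, f y γ ≠ 0} → X × ℕ := fun γ =>
    (a γ, c ⟨a γ, subset_closure (haA γ)⟩ γ)
  have hcode : Function.Injective code := by
    intro γ δ h
    have h1 : a γ = a δ := congrArg Prod.fst h
    have h2 : c ⟨a γ, subset_closure (haA γ)⟩ γ = c ⟨a δ, subset_closure (haA δ)⟩ δ :=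
      congrArg Prod.snd h
    have h3 : (⟨a δ, subset_closure (haA δ)⟩ : closure A) = ⟨a γ, subset_closure (haA γ)⟩ :=
      Subtype.ext h1.symm
    rw [h3] at h2
    refine Subtype.ext (hc _ (ha γ) ?_ h2)
    have := ha δ
    rw [h3] at this
    exact this
  let g : closure A → X × ℕ → ℝ := fun x =>
    Function.extend code (fun γ => f x γ / (|M| + 1)) 0
  have hg1 : ∀ x γ, g x (code γ) = f x γ / (|M| + 1) := fun x γ => hcode.extend_apply _ _ _
  have hg2 : ∀ x j, j ∉ range code → g x j = 0 := fun x j hj =>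
    Function.extend_apply' _ _ _ hj
  refine ⟨fun x j => if h : x ∈ closure A then g ⟨x, h⟩ j else 0, ?_, ?_, ?_, ?_, ?_⟩
  · intro x
    by_cases hx : x ∈ closure A
    · simp only [hx, dite_true]
      rw [tendsto_cofinite_zero_iff]
      intro ε hε
      have h1 := tendsto_cofinite_zero_iff.1 (hf0 ⟨x, hx⟩) (ε * (|M| + 1)) (by positivity)
      have h2 : {γ : {γ // ∃ y, f y γ ≠ 0} | ε * (|M| + 1) ≤ |f ⟨x, hx⟩ γ|}.Finite :=
        Set.Finite.preimage (f := Subtype.val) Subtype.val_injective.injOn h1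
      refine (h2.image code).subset ?_
      intro j hj
      have hj' : ε ≤ |g ⟨x, hx⟩ j| := hj
      by_cases hjr : j ∈ range code
      · obtain ⟨γ, rfl⟩ := hjr
        refine ⟨γ, ?_, rfl⟩
        rw [hg1, abs_div, abs_of_pos hL, le_div_iff₀ hL] at hj'
        exact hj'
      · rw [hg2 _ _ hjr, abs_zero] at hj'
        exact absurd hj' (not_le.2 hε)
    · simp only [hx, dite_false]
      exact tendsto_const_nhds
  · intro x j
    by_cases hx : x ∈ closure A
    · simp only [hx, dite_true]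
      by_cases hjr : j ∈ range code
      · obtain ⟨γ, rfl⟩ := hjr
        rw [hg1, abs_div, abs_of_pos hL, div_le_one hL]
        have := hM ⟨x, hx⟩ γ
        have h2 := le_abs_self M
        linarith
      · rw [hg2 _ _ hjr, abs_zero]
        exact zero_le_one
    · simp only [hx, dite_false, abs_zero]
      exact zero_le_one
  · intro j
    rw [continuousOn_iff_continuous_domRestrict]
    have : ((closure A).domRestrict fun x => if h : x ∈ closure A then g ⟨x, h⟩ j else 0) =
        fun x => g x j := by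
      funext x
      simp [Set.domRestrict_apply]
    rw [this]
    by_cases hjr : j ∈ range code
    · obtain ⟨γ, rfl⟩ := hjr
      simp only [hg1]
      exact ((continuous_apply γ.1).comp hfc).div_const _
    · have : (fun x => g x j) = fun _ => 0 := funext fun x => hg2 x j hjr
      rw [this]
      exact continuous_const
  · intro x hx y hy hxy
    have hxy' : ∀ j, g ⟨x, hx⟩ j = g ⟨y, hy⟩ j := by
      intro j
      have := congrFun hxy j
      simpa [hx, hy] using this
    have : (⟨x, hx⟩ : closure A) = ⟨y, hy⟩ := by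
      apply hfi
      funext γ
      by_cases hγ : ∃ y, f y γ ≠ 0
      · have := hxy' (code ⟨γ, hγ⟩)
        rw [hg1, hg1] at this
        exact (div_left_inj' hL.ne').1 this
      · push Not at hγ
        rw [hγ, hγ]
    exact congrArg Subtype.val this
  · intro x a' n h
    by_cases hx : x ∈ closure A
    · simp only [hx, dite_true] at h
      by_cases hjr : (a', n) ∈ range code
      · obtain ⟨γ, hγ⟩ := hjr
        have : a γ = a' := congrArg Prod.fst hγ
        rw [← this]
        exact haA γ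
      · exact absurd (hg2 _ _ hjr) h
    · simp only [hx, dite_false] at h
      exact absurd rfl h

theorem exists_dense_seq' {X : Type} [TopologicalSpace X] [CompactSpace X] [Nonempty X]
    (r : X → X → ℝ) (hc : ∀ y, Continuous fun x => r x y) (h0 : ∀ x, r x x = 0) :
    ∃ y : ℕ → X, ∀ x, ∀ ε : ℝ, 0 < ε → ∃ m, r x (y m) < ε := by
  have h1 : ∀ k : ℕ, ∃ t : Finset X, ∀ x, ∃ y ∈ t, r x y < 1 / ((k : ℝ) + 1) := by
    intro k
    obtain ⟨t, ht⟩ := isCompact_univ.elim_finite_subcover
      (fun y : X => {x | r x y < 1 / ((k : ℝ) + 1)})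
      (fun y => isOpen_lt (hc y) continuous_const) (by
        intro x _
        refine mem_iUnion.2 ⟨x, ?_⟩
        change r x x < 1 / ((k : ℝ) + 1)
        rw [h0]
        positivity)
    refine ⟨t, fun x => ?_⟩
    obtain ⟨y, hy1, hy2⟩ := mem_iUnion₂.1 (ht (mem_univ x))
    exact ⟨y, hy1, hy2⟩
  choose t ht using h1
  have hDc : (⋃ k, (↑(t k) : Set X)).Countable :=
    Set.countable_iUnion fun k => (t k).countable_toSet
  have hDne : (⋃ k, (↑(t k) : Set X)).Nonempty := by
    obtain ⟨y, hy, -⟩ := ht 0 (Classical.arbitrary X)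
    exact ⟨y, mem_iUnion.2 ⟨0, hy⟩⟩
  obtain ⟨y, hy⟩ := hDc.exists_eq_range hDne
  refine ⟨y, fun x ε hε => ?_⟩
  obtain ⟨k, hk⟩ := exists_nat_one_div_lt hε
  obtain ⟨z, hz1, hz2⟩ := ht k x
  have : z ∈ range y := by
    rw [← hy]
    exact mem_iUnion.2 ⟨k, hz1⟩
  obtain ⟨m, rfl⟩ := this
  exact ⟨m, hz2.trans hk⟩

theorem embeds_of_measures {X : Type} [TopologicalSpace X] [CompactSpace X] [T2Space X]
    (hm : ∀ T : Type, ∃ μ : Measure (PS T), NF μ) (hX : SmallEmb X) : EmbedsC0 X := by
  classical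
  by_cases hne : Nonempty X
  swap
  · refine ⟨X, fun _ _ => 0, continuous_const, ?_, fun _ => tendsto_const_nhds, 0, by simp⟩
    intro x
    exact absurd ⟨x⟩ hne
  obtain ⟨μ, hμ⟩ := hm X
  have hp := hμ.prob
  have hfu := frechet hm hX
  have hch : ∀ A : PS X, ∃ e : X → X × ℕ → ℝ, (∀ x, Tendsto (e x) cofinite (nhds 0)) ∧
      (∀ x j, |e x j| ≤ 1) ∧ (#A.el ≤ 𝔠 →
      (∀ j, ContinuousOn (fun x => e x j) (closure A.el)) ∧
      (∀ x ∈ closure A.el, ∀ y ∈ closure A.el, e x = e y → x = y) ∧
      (∀ x a n, e x (a, n) ≠ 0 → a ∈ A.el)) := by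
    intro A
    by_cases hA : #A.el ≤ 𝔠
    · obtain ⟨e, h1, h2, h3, h4, h5⟩ := reindex (hX A.el hA)
      exact ⟨e, h1, h2, fun _ => ⟨h3, h4, h5⟩⟩
    · exact ⟨fun _ _ => 0, fun _ => tendsto_const_nhds, by simp, fun h => absurd h hA⟩
  choose e he0 he1 he2 using hch
  have hmeas : ∀ φ : PS X → ℝ, AEStronglyMeasurable φ μ := fun φ =>
    (measurable_from_top : Measurable φ).aestronglyMeasurable
  have hint : ∀ (φ : PS X → ℝ) (C : ℝ), (∀ A, |φ A| ≤ C) → Integrable φ μ := fun φ C hC =>
    Integrable.of_bound (hmeas φ) C (Eventually.of_forall fun A => by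
      rw [Real.norm_eq_abs]
      exact hC A)
  let ρ : X × ℕ → X → X → ℝ := fun j x y => ∫ A, |e A x j - e A y j| ∂μ
  let N : X × ℕ → X → ℝ := fun j x => ∫ A, |e A x j| ∂μ
  have hb2 : ∀ j x y A, |e A x j - e A y j| ≤ 2 := by
    intro j x y A
    have h1 := abs_le.1 (he1 A x j)
    have h2 := abs_le.1 (he1 A y j)
    exact abs_le.2 ⟨by linarith, by linarith⟩
  have hiρ : ∀ j x y, Integrable (fun A => |e A x j - e A y j|) μ := fun j x y =>
    hint _ 2 (fun A => by rw [abs_abs]; exact hb2 j x y A)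
  have hiN : ∀ j x, Integrable (fun A => |e A x j|) μ := fun j x =>
    hint _ 1 (fun A => by rw [abs_abs]; exact he1 A x j)
  -- continuity
  have hcont : ∀ j y, Continuous fun x => ρ j x y := by
    intro j y
    refine SeqContinuous.continuous ?_
    intro u x hu
    refine tendsto_integral_of_dominated_convergence (fun _ => 2) (fun n => hmeas _)
      (integrable_const _) (fun n => Eventually.of_forall fun A => ?_) ?_
    · rw [Real.norm_eq_abs, abs_abs]
      exact hb2 j _ y A
    · have h1 : ∀ᵐ (A : PS X) ∂μ, ∀ n, u n ∈ A.el := by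
        rw [ae_all_iff]
        exact fun n => hμ.fine (u n)
      filter_upwards [h1, hμ.fine x, hμ.small] with A hu' hxA hA
      have hc := (he2 A hA).1 j x (subset_closure hxA)
      have h3 : Tendsto (fun n => e A (u n) j) atTop (nhds (e A x j)) := by
        refine hc.tendsto.comp ?_
        exact tendsto_nhdsWithin_iff.2 ⟨hu, Eventually.of_forall fun n =>
          subset_closure (hu' n)⟩
      exact (h3.sub_const _).abs
  have hself : ∀ j x, ρ j x x = 0 := by
    intro j x
    simp [ρ]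
  have hsymm : ∀ j x y, ρ j x y = ρ j y x := by
    intro j x y
    refine integral_congr_ae (Eventually.of_forall fun A => ?_)
    exact abs_sub_comm _ _
  have htri : ∀ j x y z, ρ j x z ≤ ρ j x y + ρ j y z := by
    intro j x y z
    change ∫ A, |e A x j - e A z j| ∂μ ≤
      ∫ A, |e A x j - e A y j| ∂μ + ∫ A, |e A y j - e A z j| ∂μ
    rw [← integral_add (hiρ j x y) (hiρ j y z)]
    refine integral_mono (hiρ j x z) ((hiρ j x y).add (hiρ j y z)) fun A => ?_
    exact abs_sub_le _ _ _
  have hρ0 : ∀ j x y, 0 ≤ ρ j x y := fun j x y => integral_nonneg fun A => abs_nonneg _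
  have hN0 : ∀ j x, 0 ≤ N j x := fun j x => integral_nonneg fun A => abs_nonneg _
  have hN1 : ∀ j x, N j x ≤ 1 := by
    intro j x
    have h1 : N j x ≤ ∫ _A : PS X, (1 : ℝ) ∂μ :=
      integral_mono (hiN j x) (integrable_const _) fun A => he1 A x j
    simpa using h1
  have hdiff : ∀ j x y, |ρ j x y - N j y| ≤ N j x := by
    intro j x y
    have h1 : ρ j x y - N j y = ∫ A, (|e A x j - e A y j| - |e A y j|) ∂μ := by
      rw [integral_sub (hiρ j x y) (hiN j y)]
    rw [h1]
    refine (abs_integral_le_integral_abs).trans ?_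
    refine integral_mono ((hiρ j x y).sub (hiN j y)).abs (hiN j x) fun A => ?_
    change |(|e A x j - e A y j| - |e A y j|)| ≤ |e A x j|
    have h2 := abs_abs_sub_abs_le_abs_sub (e A x j - e A y j) (-(e A y j))
    rw [abs_neg] at h2
    refine h2.trans (le_of_eq ?_)
    congr 1
    ring
  -- the null coordinates
  have hfin : ∀ x, ∀ ε : ℝ, 0 < ε → {j | ε ≤ N j x}.Finite := by
    intro x ε hε
    by_contra hinf
    have hinf' : {j | ε ≤ N j x}.Infinite := hinf
    let s := hinf'.natEmbedding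
    have hlim : Tendsto (fun n => N (s n) x) atTop (nhds 0) := by
      have h0 : (0 : ℝ) = ∫ _A : PS X, (0 : ℝ) ∂μ := by simp
      rw [h0]
      refine tendsto_integral_of_dominated_convergence (fun _ => 1) (fun n => hmeas _)
        (integrable_const _) (fun n => Eventually.of_forall fun A => ?_)
        (Eventually.of_forall fun A => ?_)
      · rw [Real.norm_eq_abs, abs_abs]
        exact he1 A x _
      · have h1 : Tendsto (fun n => e A x (s n)) atTop (nhds 0) := by
          have h2 : Function.Injective fun n => ((s n : {j | ε ≤ N j x}) : X × ℕ) :=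
            Subtype.val_injective.comp s.injective
          have h3 := h2.tendsto_cofinite
          rw [Nat.cofinite_eq_atTop] at h3
          exact (he0 A x).comp h3
        simpa using h1.abs
    have h4 := hlim.eventually (gt_mem_nhds hε)
    obtain ⟨n, hn⟩ := h4.exists
    exact absurd (s n).2 (not_le.2 hn)
  have hdense : ∀ j, ∃ y : ℕ → X, ∀ x, ∀ ε : ℝ, 0 < ε → ∃ m, ρ j x (y m) < ε := fun j =>
    exists_dense_seq' (ρ j) (hcont j) (hself j)
  choose y hy using hdense
  have hbound : ∀ x (p : (X × ℕ) × ℕ),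
      |(ρ p.1 x (y p.1 p.2) - N p.1 (y p.1 p.2)) / ((p.2 : ℝ) + 1)| ≤
        N p.1 x / ((p.2 : ℝ) + 1) := by
    intro x p
    have hpos : (0 : ℝ) < (p.2 : ℝ) + 1 := by positivity
    rw [abs_div, abs_of_pos hpos]
    exact div_le_div_of_nonneg_right (hdiff _ _ _) hpos.le
  refine ⟨(X × ℕ) × ℕ, fun x p =>
    (ρ p.1 x (y p.1 p.2) - N p.1 (y p.1 p.2)) / ((p.2 : ℝ) + 1), ?_, ?_, ?_, 1, ?_⟩
  · exact continuous_pi fun p => ((hcont _ _).sub continuous_const).div_const _
  · intro x x' hxx
    by_contra hne'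
    have hρ : ∀ j, ρ j x x' = 0 := by
      intro j
      refine le_antisymm ?_ (hρ0 _ _ _)
      refine le_of_forall_pos_lt_add fun ε hε => ?_
      obtain ⟨m, hm'⟩ := hy j x (ε / 2) (half_pos hε)
      have h1 := congrFun hxx (j, m)
      simp only at h1
      have hpos : ((m : ℝ) + 1) ≠ 0 := by positivity
      have h2 : ρ j x (y j m) = ρ j x' (y j m) := by
        have := (div_left_inj' hpos).1 h1
        linarith
      have h3 := htri j x (y j m) x'
      rw [hsymm j (y j m) x', ← h2] at h3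
      linarith
    have hae : ∀ j, ∀ᵐ (A : PS X) ∂μ, e A x j = e A x' j := by
      intro j
      have h1 := (integral_eq_zero_iff_of_nonneg (fun A => abs_nonneg _) (hiρ j x x')).1 (hρ j)
      filter_upwards [h1] with A hA
      have : |e A x j - e A x' j| = 0 := hA
      exact sub_eq_zero.1 (abs_eq_zero.1 this)
    let G : Set (PS X) := {A | #A.el ≤ 𝔠 ∧ x ∈ A.el ∧ x' ∈ A.el}
    have hG : ∀ᵐ (A : PS X) ∂μ, A ∈ G := by
      filter_upwards [hμ.small, hμ.fine x, hμ.fine x'] with A h1 h2 h3
      exact ⟨h1, h2, h3⟩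
    have hGpos : μ G ≠ 0 := by
      intro h0
      have h1 : ∀ᵐ (A : PS X) ∂μ, A ∉ G := by
        rw [ae_iff]
        simpa using h0
      obtain ⟨A, hA1, hA2⟩ := (hG.and h1).exists
      exact hA2 hA1
    have hsel : ∀ A : PS X, ∃ j : X × ℕ, A ∈ G → (j.1 ∈ A.el ∧ e A x j ≠ e A x' j) := by
      intro A
      by_cases hA : A ∈ G
      · obtain ⟨h1, h2, h3⟩ := hA
        obtain ⟨-, h4, h5⟩ := he2 A h1
        have h6 : e A x ≠ e A x' := fun h =>
          hne' (h4 x (subset_closure h2) x' (subset_closure h3) h)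
        obtain ⟨j, hj⟩ := Function.ne_iff.1 h6
        refine ⟨j, fun _ => ⟨?_, hj⟩⟩
        by_cases h7 : e A x j = 0
        · refine h5 x' j.1 j.2 ?_
          intro h8
          exact hj (h7.trans h8.symm)
        · exact h5 x j.1 j.2 h7
      · exact ⟨(Classical.arbitrary X, 0), fun h => absurd h hA⟩
    choose J hJ using hsel
    obtain ⟨a, ha⟩ := hμ.normal G (fun A => (J A).1) hGpos (fun A hA => (hJ A hA).1)
    obtain ⟨n, hn⟩ := exists_pos_fiber {A | A ∈ G ∧ (J A).1 = a} (fun A => (J A).2) ha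
    apply hn
    refine measure_mono_null ?_ (ae_iff.1 (hae (a, n)))
    rintro A ⟨⟨hA1, hA2⟩, hA3⟩
    have h1 : J A = (a, n) := Prod.ext hA2 hA3
    have h2 := (hJ A hA1).2
    rw [h1] at h2
    exact h2
  · intro x
    rw [tendsto_cofinite_zero_iff]
    intro ε hε
    obtain ⟨k, hk⟩ := exists_nat_one_div_lt hε
    refine ((hfin x ε hε).prod (Set.finite_lt_nat (k + 1))).subset ?_
    rintro ⟨j, m⟩ hjm
    have h1 : ε ≤ N j x / ((m : ℝ) + 1) := le_trans hjm (hbound x (j, m))
    have hpos : (0 : ℝ) < (m : ℝ) + 1 := by positivity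
    rw [le_div_iff₀ hpos] at h1
    have hm0 : (0 : ℝ) ≤ m := Nat.cast_nonneg m
    refine ⟨?_, ?_⟩
    · change ε ≤ N j x
      nlinarith
    · change m < k + 1
      by_contra hcon
      push Not at hcon
      have h2 : ((k : ℝ) + 1) ≤ m := by exact_mod_cast hcon
      have h3 := hN1 j x
      have h4 : 1 < ε * ((k : ℝ) + 1) := by
        rw [div_lt_iff₀ (by positivity)] at hk
        linarith
      nlinarith
  · intro x p
    refine (hbound x p).trans ?_
    have hpos : (0 : ℝ) < (p.2 : ℝ) + 1 := by positivity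
    rw [div_le_one hpos]
    have h1 := hN1 p.1 x
    have hm0 : (0 : ℝ) ≤ p.2 := Nat.cast_nonneg _
    linarith

end Pool.Agent.Helper93.EC
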