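import Pool.Agent.Helper93.EC.Space

/-!
# Normal fine measures and the tightness of compact spaces with Eberlein small closures
-/

set_option autoImplicit false

open Set Cardinal Topology Filter MeasureTheory

namespace Pool.Agent.Helper93.EC

/-- The power set with the discrete sigma-algebra. -/
def PS (T : Type) : Type := Set T

instance (T : Type) : MeasurableSpace (PS T) := ⊤

/-- The underlying set. -/
def PS.el {T : Type} (A : PS T) : Set T := A

/-- A normal fine probability measure on sets of size at most the continuum. -/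
structure NF {T : Type} (μ : Measure (PS T)) : Prop where
  one : μ Set.univ = 1
  small : ∀ᵐ (A : PS T) ∂μ, #A.el ≤ 𝔠
  fine : ∀ x, ∀ᵐ (A : PS T) ∂μ, x ∈ A.el
  normal : ∀ (P : Set (PS T)) (g : PS T → T), μ P ≠ 0 → (∀ A ∈ P, g A ∈ A.el) →
    ∃ x, μ {A | A ∈ P ∧ g A = x} ≠ 0

theorem measurableSet_PS {T : Type} (P : Set (PS T)) : MeasurableSet P := trivial

variable {T : Type} {μ : Measure (PS T)}

theorem NF.prob (h : NF μ) : IsProbabilityMeasure μ := ⟨h.one⟩

/-- Regressive functions take countably many values almost surely. -/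
theorem NF.countable_values (h : NF μ) (P : Set (PS T)) (g : PS T → T)
    (hg : ∀ A ∈ P, g A ∈ A.el) :
    ∃ V : Set T, V.Countable ∧ μ {A | A ∈ P ∧ g A ∉ V} = 0 := by
  have hp := h.prob
  let V : Set T := {x | μ {A | A ∈ P ∧ g A = x} ≠ 0}
  refine ⟨V, ?_, ?_⟩
  · have h1 := Measure.countable_meas_pos_of_disjoint_iUnion (μ := μ)
      (As := fun x : T => {A | A ∈ P ∧ g A = x}) (fun x => measurableSet_PS _) (by
        intro x y hxy
        refine Set.disjoint_left.2 ?_
        rintro A ⟨-, h1⟩ ⟨-, h2⟩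
        exact hxy (h1.symm.trans h2))
    refine h1.mono fun x hx => ?_
    exact pos_iff_ne_zero.2 hx
  · by_contra hcon
    obtain ⟨x, hx⟩ := h.normal {A | A ∈ P ∧ g A ∉ V} g hcon (fun A hA => hg A hA.1)
    have hxV : x ∈ V := by
      intro h0
      apply hx
      refine measure_mono_null ?_ h0
      rintro A ⟨⟨h1, -⟩, h2⟩
      exact ⟨h1, h2⟩
    apply hx
    have : {A | A ∈ {A | A ∈ P ∧ g A ∉ V} ∧ g A = x} = ∅ := by
      ext A
      simp only [mem_setOf_eq, mem_empty_iff_false, iff_false]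
      rintro ⟨⟨-, h1⟩, h2⟩
      rw [h2] at h1
      exact h1 hxV
    rw [this]
    exact measure_empty

/-- Splitting a positive set countably. -/
theorem exists_pos_fiber {ι : Type} [Countable ι] (P : Set (PS T)) (k : PS T → ι)
    (hP : μ P ≠ 0) : ∃ i, μ {A | A ∈ P ∧ k A = i} ≠ 0 := by
  by_contra! hcon
  apply hP
  have : P = ⋃ i, {A | A ∈ P ∧ k A = i} := by
    ext A
    simp
  rw [this]
  exact measure_iUnion_null hcon

theorem NF.finset_aux (h : NF μ) : ∀ (n : ℕ) (P : Set (PS T)) (G : PS T → Finset T),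
    μ P ≠ 0 → (∀ A ∈ P, (↑(G A) : Set T) ⊆ A.el ∧ (G A).card = n) →
    ∃ F : Finset T, μ {A | A ∈ P ∧ G A = F} ≠ 0 := by
  classical
  intro n
  induction n with
  | zero =>
    intro P G hP hG
    refine ⟨∅, ?_⟩
    have : {A | A ∈ P ∧ G A = ∅} = P := by
      ext A
      constructor
      · exact fun h => h.1
      · exact fun h => ⟨h, Finset.card_eq_zero.1 (hG A h).2⟩
    rw [this]
    exact hP
  | succ n ih =>
    intro P G hP hG
    obtain ⟨A0, hA0⟩ : P.Nonempty := by
      by_contra hemp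
      rw [not_nonempty_iff_eq_empty] at hemp
      rw [hemp] at hP
      exact hP measure_empty
    have hne : ∀ A ∈ P, (G A).Nonempty := fun A hA => by
      rw [← Finset.card_pos, (hG A hA).2]
      omega
    obtain ⟨t0, -⟩ := hne A0 hA0
    have hch : ∀ A, ∃ t, A ∈ P → t ∈ G A := by
      intro A
      by_cases hA : A ∈ P
      · obtain ⟨t, ht⟩ := hne A hA
        exact ⟨t, fun _ => ht⟩
      · exact ⟨t0, fun h => absurd h hA⟩
    choose g hg using hch
    obtain ⟨x, hx⟩ := h.normal P g hP (fun A hA => (hG A hA).1 (hg A hA))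
    obtain ⟨F, hF⟩ := ih {A | A ∈ P ∧ g A = x} (fun A => (G A).erase x) hx (by
      rintro A ⟨hA, hgx⟩
      refine ⟨fun y hy => (hG A hA).1 (Finset.mem_of_mem_erase hy), ?_⟩
      rw [Finset.card_erase_of_mem (hgx ▸ hg A hA), (hG A hA).2]
      omega)
    refine ⟨insert x F, fun h0 => hF (measure_mono_null ?_ h0)⟩
    rintro A ⟨⟨hA, hgx⟩, hE⟩
    refine ⟨hA, ?_⟩
    rw [← hE, Finset.insert_erase (hgx ▸ hg A hA)]

/-- Normality for finite subsets. -/
theorem NF.finset (h : NF μ) (P : Set (PS T)) (G : PS T → Finset T) (hP : μ P ≠ 0)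
    (hG : ∀ A ∈ P, (↑(G A) : Set T) ⊆ A.el) :
    ∃ F : Finset T, μ {A | A ∈ P ∧ G A = F} ≠ 0 := by
  obtain ⟨n, hn⟩ := exists_pos_fiber P (fun A => (G A).card) hP
  obtain ⟨F, hF⟩ := h.finset_aux n _ G hn (fun A hA => ⟨hG A hA.1, hA.2⟩)
  refine ⟨F, fun h0 => hF (measure_mono_null ?_ h0)⟩
  rintro A ⟨⟨h1, -⟩, h2⟩
  exact ⟨h1, h2⟩

/-- Almost every set is closed under a given operation on finite sets. -/
theorem NF.closed_op (h : NF μ) (op : Finset T → T) :
    ∀ᵐ (A : PS T) ∂μ, ∀ F : Finset T, (↑F : Set T) ⊆ A.el → op F ∈ A.el := by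
  rw [ae_iff]
  by_contra hcon
  have hch : ∀ A : PS T, ∃ F : Finset T,
      (¬ ∀ F : Finset T, (↑F : Set T) ⊆ A.el → op F ∈ A.el) →
      ((↑F : Set T) ⊆ A.el ∧ op F ∉ A.el) := by
    intro A
    by_cases hA : ∀ F : Finset T, (↑F : Set T) ⊆ A.el → op F ∈ A.el
    · exact ⟨∅, fun h => absurd hA h⟩
    · have hA' := hA
      push Not at hA'
      obtain ⟨F, hF⟩ := hA'
      exact ⟨F, fun _ => hF⟩
  choose G hG using hch
  obtain ⟨F, hF⟩ := h.finset _ G hcon (fun A hA => (hG A hA).1)
  apply hF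
  refine measure_mono_null ?_ (ae_iff.1 (h.fine (op F)))
  rintro A ⟨hA, hE⟩
  have := (hG A hA).2
  rw [hE] at this
  exact this

/-- Countable closing off. -/
theorem exists_countable_closed {Γ : Type} (op : Finset Γ → Set Γ) (hop : ∀ F, (op F).Countable) :
    ∃ C : Set Γ, C.Countable ∧ ∀ F : Finset Γ, (↑F : Set Γ) ⊆ C → op F ⊆ C := by
  let C : ℕ → Set Γ := fun n => Nat.rec ∅
    (fun _ D => D ∪ ⋃ F ∈ {F : Finset Γ | (↑F : Set Γ) ⊆ D}, op F) n
  have hC : ∀ n, C (n + 1) = C n ∪ ⋃ F ∈ {F : Finset Γ | (↑F : Set Γ) ⊆ C n}, op F :=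
    fun n => rfl
  have hcount : ∀ n, (C n).Countable := by
    intro n
    induction n with
    | zero => exact Set.countable_empty
    | succ n ih =>
      rw [hC]
      refine ih.union (Set.Countable.biUnion ?_ fun F _ => hop F)
      have h1 := Set.countable_setOf_finite_subset ih
      have h2 : Set.InjOn (fun F : Finset Γ => (↑F : Set Γ))
          {F : Finset Γ | (↑F : Set Γ) ⊆ C n} := fun a _ b _ hab => Finset.coe_injective hab
      refine Set.countable_of_injective_of_countable_image h2 (h1.mono ?_)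
      rintro _ ⟨F, hF, rfl⟩
      exact ⟨F.finite_toSet, hF⟩
  have hmono : Monotone C := monotone_nat_of_le_succ fun n => by
    rw [hC]
    exact Set.subset_union_left
  refine ⟨⋃ n, C n, Set.countable_iUnion hcount, fun F hF => ?_⟩
  have h1 : ∃ n, (↑F : Set Γ) ⊆ C n := by
    obtain ⟨n, hn⟩ := Set.finite_subset_iUnion F.finite_toSet hF |>.imp fun I hI => hI
    obtain ⟨hnf, hsub⟩ := hn
    obtain ⟨N, hN⟩ := hnf.bddAbove
    refine ⟨N, hsub.trans ?_⟩
    exact Set.iUnion₂_subset fun i hi => hmono (hN hi)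
  obtain ⟨n, hn⟩ := h1
  refine Set.Subset.trans ?_ (Set.subset_iUnion C (n + 1))
  rw [hC]
  refine Set.Subset.trans ?_ Set.subset_union_right
  exact Set.subset_biUnion_of_mem (u := fun F => op F) hn

theorem countable_support {Γ : Type} {v : Γ → ℝ} (hv : Tendsto v cofinite (nhds 0)) :
    {γ | v γ ≠ 0}.Countable := by
  have h : {γ | v γ ≠ 0} = ⋃ n : ℕ, {γ | 1 / ((n : ℝ) + 1) < |v γ|} := by
    ext γ
    constructor
    · intro hγ
      obtain ⟨n, hn⟩ := exists_nat_one_div_lt (abs_pos.2 hγ)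
      exact mem_iUnion.2 ⟨n, hn⟩
    · intro hγ h0
      obtain ⟨n, hn⟩ := mem_iUnion.1 hγ
      have h1 : 1 / ((n : ℝ) + 1) < |v γ| := hn
      rw [h0, abs_zero] at h1
      have : (0 : ℝ) < 1 / ((n : ℝ) + 1) := by positivity
      linarith
  rw [h]
  refine Set.countable_iUnion fun n => Set.Finite.countable ?_
  have h3 := hv.abs.eventually (gt_mem_nhds (show |(0 : ℝ)| < 1 / ((n : ℝ) + 1) by
    rw [abs_zero]
    positivity))
  rw [Filter.eventually_cofinite] at h3
  exact h3.subset fun g hg => not_lt.2 (le_of_lt hg)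

variable {X : Type} [TopologicalSpace X] [CompactSpace X] [T2Space X]

/-- Points of the closure of `E` are in the closure of a countable subset. -/
theorem countable_of_embeds {E : Set X} (hE : EmbedsC0 (closure E)) {z : X}
    (hz : z ∈ closure E) : ∃ D ⊆ E, D.Countable ∧ z ∈ closure D := by
  obtain ⟨Γ, f, hfc, hfi, hf0, -⟩ := hE
  have hcomp : CompactSpace (closure E) := isCompact_iff_compactSpace.1 isClosed_closure.isCompact
  have hemb := hfc.isClosedEmbedding hfi
  let Z : closure E := ⟨z, hz⟩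
  have hpick : ∀ (F : Finset Γ) (n : ℕ), ∃ e : closure E, (e : X) ∈ E ∧
      ∀ γ ∈ F, |f e γ - f Z γ| < 1 / ((n : ℝ) + 1) := by
    intro F n
    have hopen : IsOpen {y : closure E | ∀ γ ∈ F, |f y γ - f Z γ| < 1 / ((n : ℝ) + 1)} := by
      have : {y : closure E | ∀ γ ∈ F, |f y γ - f Z γ| < 1 / ((n : ℝ) + 1)} =
          ⋂ γ ∈ F, {y : closure E | |f y γ - f Z γ| < 1 / ((n : ℝ) + 1)} := by
        ext y
        simp
      rw [this]
      refine isOpen_biInter_finset fun γ _ => ?_
      have hc : Continuous fun y : closure E => |f y γ - f Z γ| :=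
        (((continuous_apply γ).comp hfc).sub continuous_const).abs
      exact isOpen_lt hc continuous_const
    have hZ : Z ∈ {y : closure E | ∀ γ ∈ F, |f y γ - f Z γ| < 1 / ((n : ℝ) + 1)} := by
      intro γ _
      rw [sub_self, abs_zero]
      positivity
    obtain ⟨U, hU, hUeq⟩ := isOpen_induced_iff.1 hopen
    have hzU : z ∈ U := by
      have : Z ∈ Subtype.val ⁻¹' U := by
        rw [hUeq]
        exact hZ
      exact this
    obtain ⟨e, he1, he2⟩ := mem_closure_iff.1 hz U hU hzU
    refine ⟨⟨e, subset_closure he2⟩, he2, ?_⟩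
    have : (⟨e, subset_closure he2⟩ : closure E) ∈ Subtype.val ⁻¹' U := he1
    rw [hUeq] at this
    exact this
  choose e he1 he2 using hpick
  obtain ⟨C, hC, hCop⟩ := exists_countable_closed
    (fun F : Finset Γ => {γ | f Z γ ≠ 0} ∪ ⋃ n : ℕ, {γ | f (e F n) γ ≠ 0})
    (fun F => (countable_support (hf0 Z)).union
      (Set.countable_iUnion fun n => countable_support (hf0 _)))
  let D' : Set (closure E) := {y | ∃ (F : Finset Γ) (n : ℕ), (↑F : Set Γ) ⊆ C ∧ y = e F n}
  have hD'c : D'.Countable := by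
    have h1 : {F : Finset Γ | (↑F : Set Γ) ⊆ C}.Countable := by
      have h1 := Set.countable_setOf_finite_subset hC
      have h2 : Set.InjOn (fun F : Finset Γ => (↑F : Set Γ))
          {F : Finset Γ | (↑F : Set Γ) ⊆ C} := fun a _ b _ hab => Finset.coe_injective hab
      refine Set.countable_of_injective_of_countable_image h2 (h1.mono ?_)
      rintro _ ⟨F, hF, rfl⟩
      exact ⟨F.finite_toSet, hF⟩
    have h2 : D' = ⋃ F ∈ {F : Finset Γ | (↑F : Set Γ) ⊆ C}, Set.range (e F) := by
      ext y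
      constructor
      · rintro ⟨F, n, hF, rfl⟩
        exact mem_iUnion₂.2 ⟨F, hF, n, rfl⟩
      · intro hy
        obtain ⟨F, hF, n, hn⟩ := mem_iUnion₂.1 hy
        exact ⟨F, n, hF, hn.symm⟩
    rw [h2]
    exact h1.biUnion fun F _ => Set.countable_range _
  refine ⟨Subtype.val '' D', ?_, hD'c.image _, ?_⟩
  · rintro _ ⟨y, ⟨F, n, -, rfl⟩, rfl⟩
    exact he1 F n
  · have hZcl : Z ∈ closure D' := by
      rw [hemb.isInducing.closure_eq_preimage_closure_image]
      change f Z ∈ closure (f '' D')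
      rw [mem_closure_iff]
      intro o ho hzo
      obtain ⟨F, u, hF1, hF2⟩ := isOpen_pi_iff.1 ho _ hzo
      classical
      -- choose a uniform radius
      have hrad : ∀ γ ∈ F, ∃ n : ℕ, ∀ t : ℝ, |t - f Z γ| < 1 / ((n : ℝ) + 1) → t ∈ u γ := by
        intro γ hγ
        obtain ⟨hopen, hmem⟩ := hF1 γ hγ
        obtain ⟨ε, hε, hball⟩ := Metric.isOpen_iff.1 hopen _ hmem
        obtain ⟨n, hn⟩ := exists_nat_one_div_lt hε
        refine ⟨n, fun t ht => hball ?_⟩
        rw [Metric.mem_ball, Real.dist_eq]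
        exact ht.trans hn
      choose! nn hnn using hrad
      let N := F.sup nn
      let F' := F.filter (fun γ => γ ∈ C)
      have hF'C : (↑F' : Set Γ) ⊆ C := by
        intro γ hγ
        exact (Finset.mem_filter.1 hγ).2
      refine ⟨f (e F' N), hF2 ?_, ⟨e F' N, ⟨F', N, hF'C, rfl⟩, rfl⟩⟩
      intro γ hγ
      refine hnn γ hγ _ ?_
      have hle : 1 / ((N : ℝ) + 1) ≤ 1 / ((nn γ : ℝ) + 1) := by
        apply one_div_le_one_div_of_le (by positivity)
        have : nn γ ≤ N := Finset.le_sup (f := nn) hγ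
        have : (nn γ : ℝ) ≤ (N : ℝ) := by exact_mod_cast this
        linarith
      by_cases hγC : γ ∈ C
      · exact (he2 F' N γ (Finset.mem_filter.2 ⟨hγ, hγC⟩)).trans_le hle
      · have h1 : f Z γ = 0 := by
          by_contra h
          exact hγC (hCop F' hF'C (Or.inl h))
        have h2 : f (e F' N) γ = 0 := by
          by_contra h
          exact hγC (hCop F' hF'C (Or.inr (mem_iUnion.2 ⟨N, h⟩)))
        rw [h1, h2, sub_zero, abs_zero]
        positivity
    exact image_closure_subset_closure_image continuous_subtype_val ⟨Z, hZcl, rfl⟩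

/-- Points of the closure of a countable set are limits of sequences. -/
theorem seq_of_embeds {D : Set X} (hD : D.Countable) (hE : EmbedsC0 (closure D)) {z : X}
    (hz : z ∈ closure D) : ∃ d : ℕ → X, (∀ n, d n ∈ D) ∧ Tendsto d atTop (nhds z) := by
  obtain ⟨Γ, f, hfc, hfi, hf0, -⟩ := hE
  have hcomp : CompactSpace (closure D) := isCompact_iff_compactSpace.1 isClosed_closure.isCompact
  let D' : Set (closure D) := {y | (y : X) ∈ D}
  have hD'dense : ∀ y : closure D, y ∈ closure D' := by
    intro y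
    rw [closure_subtype]
    refine closure_mono ?_ y.2
    intro x hx
    exact ⟨⟨x, subset_closure hx⟩, hx, rfl⟩
  have hD'c : D'.Countable := by
    refine Set.countable_of_injective_of_countable_image (f := Subtype.val)
      (Subtype.val_injective.injOn) (hD.mono ?_)
    rintro _ ⟨y, hy, rfl⟩
    exact hy
  let C : Set Γ := ⋃ y ∈ D', {γ | f y γ ≠ 0}
  have hC : C.Countable := hD'c.biUnion fun y _ => countable_support (hf0 y)
  have hzero : ∀ γ, γ ∉ C → ∀ y, f y γ = 0 := by
    intro γ hγ y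
    have hcl : IsClosed {y : closure D | f y γ = 0} :=
      isClosed_eq ((continuous_apply γ).comp hfc) continuous_const
    have hsub : D' ⊆ {y : closure D | f y γ = 0} := by
      intro y hy
      by_contra h
      exact hγ (mem_iUnion₂.2 ⟨y, hy, h⟩)
    exact closure_minimal hsub hcl (hD'dense y)
  have hCc : Countable C := hC.to_subtype
  let g : closure D → (C → ℝ) := fun y γ => f y γ
  have hgc : Continuous g := continuous_pi fun γ => (continuous_apply (γ : Γ)).comp hfc
  have hgi : Function.Injective g := by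
    intro x y hxy
    apply hfi
    funext γ
    by_cases hγ : γ ∈ C
    · exact congrFun hxy ⟨γ, hγ⟩
    · rw [hzero γ hγ, hzero γ hγ]
  have hemb := hgc.isClosedEmbedding hgi
  have hmet : TopologicalSpace.MetrizableSpace (closure D) := hemb.isEmbedding.metrizableSpace
  letI : MetricSpace (closure D) := TopologicalSpace.metrizableSpaceMetric (closure D)
  obtain ⟨d, hd1, hd2⟩ := mem_closure_iff_seq_limit.1 (hD'dense ⟨z, hz⟩)
  exact ⟨fun n => d n, fun n => hd1 n,
    (continuous_subtype_val.tendsto (⟨z, hz⟩ : closure D)).comp hd2⟩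

end Pool.Agent.Helper93.EC
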