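import Pool.Agent.Helper93.EC.Fodor

/-!
# The one-point compactification of a ladder space
-/

set_option autoImplicit false

open Set Cardinal Order Topology Filter

namespace Pool.Agent.Helper93.EC

/-- `K` embeds as a bounded pointwise compact subset of some `c₀(Γ)`. -/
def EmbedsC0 (K : Type) [TopologicalSpace K] : Prop :=
  ∃ (Γ : Type) (f : K → (Γ → ℝ)), Continuous f ∧ Function.Injective f ∧
    (∀ x, Filter.Tendsto (f x) Filter.cofinite (nhds 0)) ∧
    ∃ M : ℝ, ∀ x γ, |f x γ| ≤ M

variable {α : Type} [LinearOrder α] [WellFoundedLT α]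

noncomputable section

open scoped Classical in
/-- The isolated point with index `i`. -/
def xi (S : Set α) (l : α → ℕ → α) (i : α) : α ⊕ α → Bool :=
  Sum.elim (fun k => decide (k = i)) (fun δ => decide (δ ∈ S ∧ ∃ n, l δ n = i))

open scoped Classical in
/-- The limit point with index `δ`. -/
def pt (δ : α) : α ⊕ α → Bool :=
  Sum.elim (fun _ => false) (fun k => decide (k = δ))

/-- The point at infinity. -/
def z0 : α ⊕ α → Bool := fun _ => false

@[simp] theorem xi_inl (S : Set α) (l : α → ℕ → α) (i k : α) :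
    xi S l i (Sum.inl k) = true ↔ k = i := by simp [xi]

@[simp] theorem xi_inr (S : Set α) (l : α → ℕ → α) (i k : α) :
    xi S l i (Sum.inr k) = true ↔ k ∈ S ∧ ∃ n, l k n = i := by simp [xi]

@[simp] theorem pt_inl (δ k : α) : pt δ (Sum.inl k) = false := rfl

@[simp] theorem pt_inr (δ k : α) : pt δ (Sum.inr k) = true ↔ k = δ := by simp [pt]

/-- Points with all indices at most `a`. -/
def XX (S : Set α) (l : α → ℕ → α) (P : α → Prop) : Set (α ⊕ α → Bool) :=
  {x | x = z0 ∨ (∃ δ ∈ S, P δ ∧ x = pt δ) ∨ ∃ i, P i ∧ x = xi S l i}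

theorem exists_agree {ι : Type} {X : Set (ι → Bool)} {y : ι → Bool} (hy : y ∈ closure X)
    {F : Set ι} (hF : F.Finite) : ∃ x ∈ X, ∀ j ∈ F, x j = y j := by
  have hopen : IsOpen (Set.pi F fun j => ({y j} : Set Bool)) :=
    isOpen_set_pi hF fun j _ => isOpen_discrete _
  obtain ⟨x, hx1, hx2⟩ := mem_closure_iff.1 hy _ hopen (fun j _ => rfl)
  exact ⟨x, hx2, fun j hj => hx1 j hj⟩

theorem inter_finite {S : Set α} {l : α → ℕ → α} (hl : Ladder S l) {δ δ' : α} (hδ : δ ∈ S)
    (hδ' : δ' ∈ S) (hne : δ ≠ δ') :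
    {i | (∃ n, l δ n = i) ∧ ∃ n, l δ' n = i}.Finite := by
  wlog h : δ < δ' generalizing δ δ'
  · have := this hδ' hδ hne.symm (lt_of_le_of_ne (not_lt.1 h) hne.symm)
    refine this.subset ?_
    rintro i ⟨h1, h2⟩
    exact ⟨h2, h1⟩
  obtain ⟨N, hN⟩ := hl.cof δ' hδ' δ h
  refine ((Set.finite_lt_nat N).image (l δ')).subset ?_
  rintro i ⟨⟨n, rfl⟩, ⟨m, hm⟩⟩
  refine ⟨m, ?_, hm⟩
  by_contra hcon
  have h1 : δ < l δ' m := hN.trans_le ((hl.mono δ' hδ').monotone (not_lt.1 hcon))
  rw [hm] at h1
  exact absurd h1 (hl.lt δ hδ n).not_gt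

theorem below_finite {S : Set α} {l : α → ℕ → α} (hl : Ladder S l) {δ a : α} (hδ : δ ∈ S)
    (ha : a < δ) : {i | (∃ n, l δ n = i) ∧ i ≤ a}.Finite := by
  obtain ⟨N, hN⟩ := hl.cof δ hδ a ha
  refine ((Set.finite_lt_nat N).image (l δ)).subset ?_
  rintro i ⟨⟨n, rfl⟩, h⟩
  refine ⟨n, ?_, rfl⟩
  by_contra hcon
  exact absurd (hN.trans_le ((hl.mono δ hδ).monotone (not_lt.1 hcon))) (not_lt.2 h)

theorem isClosed_XX {S : Set α} {l : α → ℕ → α} (hl : Ladder S l) (P : α → Prop)
    (hP : ∀ δ ∈ S, ¬ P δ → {i | (∃ n, l δ n = i) ∧ P i}.Finite) :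
    IsClosed (XX S l P) := by
  rw [← closure_subset_iff_isClosed]
  intro y hy
  by_cases h1 : ∃ i, y (Sum.inl i) = true
  · obtain ⟨i, hi⟩ := h1
    have key : ∀ j, xi S l i j = y j ∧ P i := by
      intro j
      obtain ⟨x, hx, hxy⟩ := exists_agree hy (F := {Sum.inl i, j}) (by simp)
      have hxi : x (Sum.inl i) = true := by rw [hxy _ (by simp), hi]
      rcases hx with rfl | ⟨δ, -, -, rfl⟩ | ⟨k, hk, rfl⟩
      · exact absurd hxi (by simp [z0])
      · exact absurd hxi (by simp)
      · rw [xi_inl] at hxi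
        subst hxi
        exact ⟨hxy _ (by simp), hk⟩
    exact Or.inr (Or.inr ⟨i, (key (Sum.inl i)).2, funext fun j => (key j).1.symm⟩)
  · push Not at h1
    have h1' : ∀ i, y (Sum.inl i) = false := fun i => by simpa using h1 i
    by_cases h2 : ∃ δ, y (Sum.inr δ) = true
    · obtain ⟨δ, hδ⟩ := h2
      have hδS : δ ∈ S ∧ P δ := by
        by_cases hPδ : δ ∈ S ∧ ¬ P δ
        · exfalso
          obtain ⟨x, hx, hxy⟩ := exists_agree hy
            (F := {Sum.inr δ} ∪ Sum.inl '' {i | (∃ n, l δ n = i) ∧ P i})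
            ((Set.finite_singleton _).union ((hP δ hPδ.1 hPδ.2).image _))
          have hxδ : x (Sum.inr δ) = true := by rw [hxy _ (Or.inl rfl), hδ]
          rcases hx with rfl | ⟨δ', hδ', hPδ', rfl⟩ | ⟨k, hk, rfl⟩
          · exact absurd hxδ (by simp [z0])
          · rw [pt_inr] at hxδ
            subst hxδ
            exact hPδ.2 hPδ'
          · rw [xi_inr] at hxδ
            have h3 := hxy (Sum.inl k) (Or.inr ⟨k, ⟨hxδ.2, hk⟩, rfl⟩)
            rw [h1' k] at h3
            have h4 : xi S l k (Sum.inl k) = true := by simp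
            rw [h3] at h4
            exact Bool.false_ne_true h4
        · have hS : δ ∈ S := by
            obtain ⟨x, hx, hxy⟩ := exists_agree hy (F := {Sum.inr δ}) (by simp)
            have hxδ : x (Sum.inr δ) = true := by rw [hxy _ rfl, hδ]
            rcases hx with rfl | ⟨δ', hδ', -, rfl⟩ | ⟨k, -, rfl⟩
            · exact absurd hxδ (by simp [z0])
            · rw [pt_inr] at hxδ
              rw [hxδ]
              exact hδ'
            · rw [xi_inr] at hxδ
              exact hxδ.1
          push Not at hPδ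
          exact ⟨hS, hPδ hS⟩
      refine Or.inr (Or.inl ⟨δ, hδS.1, hδS.2, ?_⟩)
      funext j
      rcases j with i | δ'
      · rw [h1' i, pt_inl]
      · by_cases hd : δ' = δ
        · subst hd
          rw [hδ]
          exact (by simp : pt δ' (Sum.inr δ') = true).symm
        · have hf : pt δ (Sum.inr δ') = false := by
            rw [Bool.eq_false_iff]
            intro h
            rw [pt_inr] at h
            exact hd h
          rw [hf]
          by_contra hcon
          have hyt : y (Sum.inr δ') = true := by simpa using hcon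
          have hS' : δ' ∈ S := by
            obtain ⟨x, hx, hxy⟩ := exists_agree hy (F := {Sum.inr δ'}) (by simp)
            have hxδ : x (Sum.inr δ') = true := by rw [hxy _ rfl, hyt]
            rcases hx with rfl | ⟨δ'', hδ'', -, rfl⟩ | ⟨k, -, rfl⟩
            · exact absurd hxδ (by simp [z0])
            · rw [pt_inr] at hxδ
              rw [hxδ]
              exact hδ''
            · rw [xi_inr] at hxδ
              exact hxδ.1
          obtain ⟨x, hx, hxy⟩ := exists_agree hy
            (F := {Sum.inr δ, Sum.inr δ'} ∪ Sum.inl '' {i | (∃ n, l δ n = i) ∧ ∃ n, l δ' n = i})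
            (Set.Finite.union (by simp) ((inter_finite hl hδS.1 hS' (Ne.symm hd)).image _))
          have hx1 : x (Sum.inr δ) = true := by rw [hxy _ (Or.inl (by simp)), hδ]
          have hx2 : x (Sum.inr δ') = true := by rw [hxy _ (Or.inl (by simp)), hyt]
          rcases hx with rfl | ⟨δ'', -, -, rfl⟩ | ⟨k, -, rfl⟩
          · exact absurd hx1 (by simp [z0])
          · rw [pt_inr] at hx1 hx2
            exact hd (hx2.trans hx1.symm)
          · rw [xi_inr] at hx1 hx2
            have h3 := hxy (Sum.inl k) (Or.inr ⟨k, ⟨hx1.2, hx2.2⟩, rfl⟩)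
            rw [h1' k] at h3
            have h4 : xi S l k (Sum.inl k) = true := by simp
            rw [h3] at h4
            exact Bool.false_ne_true h4
    · push Not at h2
      refine Or.inl (funext fun j => ?_)
      rcases j with i | δ
      · exact h1' i
      · simpa [z0] using h2 δ

/-- The space. -/
abbrev LX (S : Set α) (l : α → ℕ → α) : Type := XX S l (fun _ => True)

theorem isClosed_LX {S : Set α} {l : α → ℕ → α} (hl : Ladder S l) :
    IsClosed (XX S l (fun _ => True)) :=
  isClosed_XX hl _ (fun _ _ h => absurd trivial h)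

theorem compact_LX {S : Set α} {l : α → ℕ → α} (hl : Ladder S l) : CompactSpace (LX S l) :=
  isCompact_iff_compactSpace.1 (isClosed_LX hl).isCompact

/-- Closures of bounded sets embed in `c₀`. -/
theorem embeds_bounded {S : Set α} {l : α → ℕ → α} (hl : Ladder S l) {a : α} {f : α → ℕ}
    (hf : Tails S l a f) (A : Set (LX S l)) (hA : ∀ x ∈ A, (x : α ⊕ α → Bool) ∈
      XX S l (fun i => i ≤ a)) : EmbedsC0 (closure A) := by
  classical
  have hcl : IsClosed (XX S l (fun i => i ≤ a)) := isClosed_XX hl _ (fun δ hδ h =>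
    below_finite hl hδ (not_le.1 h))
  have hmem : ∀ x ∈ closure A, (x : α ⊕ α → Bool) ∈ XX S l (fun i => i ≤ a) := by
    intro x hx
    have h1 : IsClosed (Subtype.val ⁻¹' XX S l (fun i => i ≤ a) : Set (LX S l)) :=
      hcl.preimage continuous_subtype_val
    exact closure_minimal (show A ⊆ Subtype.val ⁻¹' XX S l (fun i => i ≤ a) from hA) h1 hx
  let bb : Bool → ℝ := fun b => if b then 1 else 0
  have hbb : Continuous bb := continuous_of_discreteTopology
  have hb1 : bb true = 1 := rfl
  have hb0 : bb false = 0 := rfl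
  have hbrange : ∀ b, bb b = 0 ∨ bb b = 1 := by
    intro b
    cases b
    · exact Or.inl rfl
    · exact Or.inr rfl
  let g : closure A → (α ⊕ α → ℝ) := fun x => Sum.elim
    (fun i => bb ((x.1 : α ⊕ α → Bool) (Sum.inl i)))
    (fun δ => if δ ≤ a then bb ((x.1 : α ⊕ α → Bool) (Sum.inr δ)) *
      ∏ n ∈ Finset.range (f δ), (1 - bb ((x.1 : α ⊕ α → Bool) (Sum.inl (l δ n)))) else 0)
  have hcoord : ∀ j, Continuous fun x : closure A => (x.1 : α ⊕ α → Bool) j := fun j =>
    (continuous_apply j).comp (continuous_subtype_val.comp continuous_subtype_val)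
  have hgc : Continuous g := by
    refine continuous_pi fun j => ?_
    rcases j with i | δ
    · exact hbb.comp (hcoord _)
    · by_cases hδ : δ ≤ a
      · simp only [g, Sum.elim_inr, if_pos hδ]
        refine (hbb.comp (hcoord _)).mul ?_
        exact continuous_finset_prod _ fun n _ => continuous_const.sub (hbb.comp (hcoord _))
      · simp only [g, Sum.elim_inr, if_neg hδ]
        exact continuous_const
  -- values of `g`
  have hgz : ∀ x : closure A, (x.1 : α ⊕ α → Bool) = z0 → ∀ j, g x j = 0 := by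
    intro x hx j
    rcases j with i | δ
    · simp only [g, Sum.elim_inl, hx, z0, hb0]
    · simp only [g, Sum.elim_inr, hx, z0, hb0]
      simp
  have hgp : ∀ x : closure A, ∀ δ, δ ≤ a → (x.1 : α ⊕ α → Bool) = pt δ →
      (∀ i, g x (Sum.inl i) = 0) ∧ g x (Sum.inr δ) = 1 ∧ ∀ δ', δ' ≠ δ → g x (Sum.inr δ') = 0 := by
    intro x δ hδ hx
    refine ⟨fun i => ?_, ?_, fun δ' hne => ?_⟩
    · simp only [g, Sum.elim_inl, hx, pt_inl, hb0]
    · have h1 : pt δ (Sum.inr δ) = true := by simp
      simp only [g, Sum.elim_inr, hx, if_pos hδ, h1, hb1, pt_inl, hb0]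
      simp
    · have h1 : pt δ (Sum.inr δ') = false := by
        rw [Bool.eq_false_iff]
        intro h
        rw [pt_inr] at h
        exact hne h
      simp only [g, Sum.elim_inr, hx, h1, hb0]
      simp
  have hgx : ∀ x : closure A, ∀ i, (x.1 : α ⊕ α → Bool) = xi S l i →
      g x (Sum.inl i) = 1 ∧ (∀ k, k ≠ i → g x (Sum.inl k) = 0) ∧
      ∀ δ, g x (Sum.inr δ) ≠ 0 → δ ≤ a ∧ δ ∈ S ∧ ∃ n, f δ ≤ n ∧ l δ n = i := by
    intro x i hx
    refine ⟨?_, fun k hk => ?_, fun δ hδ => ?_⟩
    · have h1 : xi S l i (Sum.inl i) = true := by simp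
      simp only [g, Sum.elim_inl, hx, h1, hb1]
    · have h1 : xi S l i (Sum.inl k) = false := by
        rw [Bool.eq_false_iff]
        intro h
        rw [xi_inl] at h
        exact hk h
      simp only [g, Sum.elim_inl, hx, h1, hb0]
    · by_cases hδa : δ ≤ a
      · simp only [g, Sum.elim_inr, hx, if_pos hδa] at hδ
        have h1 : xi S l i (Sum.inr δ) = true := by
          by_contra h
          rw [Bool.not_eq_true] at h
          rw [h, hb0, zero_mul] at hδ
          exact hδ rfl
        rw [xi_inr] at h1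
        obtain ⟨h2, n, hn⟩ := h1
        refine ⟨hδa, h2, n, ?_, hn⟩
        by_contra hlt
        apply hδ
        rw [mul_eq_zero]
        right
        refine Finset.prod_eq_zero (Finset.mem_range.2 (not_le.1 hlt)) ?_
        have h3 : xi S l i (Sum.inl (l δ n)) = true := by simp [hn]
        rw [h3, hb1, sub_self]
      · simp only [g, Sum.elim_inr, if_neg hδa] at hδ
        exact absurd rfl hδ
  refine ⟨α ⊕ α, g, hgc, ?_, ?_, 1, ?_⟩
  · intro x y hxy
    have hx := hmem x.1 x.2
    have hy := hmem y.1 y.2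
    apply Subtype.ext
    apply Subtype.ext
    have hj : ∀ j, g x j = g y j := fun j => congrFun hxy j
    rcases hx with hx | ⟨δ, hδ, hδa, hx⟩ | ⟨i, hi, hx⟩ <;>
    rcases hy with hy | ⟨δ', hδ', hδa', hy⟩ | ⟨i', hi', hy⟩
    · rw [hx, hy]
    · exfalso
      have := hj (Sum.inr δ')
      rw [hgz x hx, (hgp y δ' hδa' hy).2.1] at this
      exact zero_ne_one this
    · exfalso
      have := hj (Sum.inl i')
      rw [hgz x hx, (hgx y i' hy).1] at this
      exact zero_ne_one this
    · exfalso
      have := hj (Sum.inr δ)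
      rw [hgz y hy, (hgp x δ hδa hx).2.1] at this
      exact one_ne_zero this
    · rw [hx, hy]
      by_cases h : δ = δ'
      · rw [h]
      · exfalso
        have := hj (Sum.inr δ)
        rw [(hgp x δ hδa hx).2.1, (hgp y δ' hδa' hy).2.2 δ h] at this
        exact one_ne_zero this
    · exfalso
      have := hj (Sum.inl i')
      rw [(hgp x δ hδa hx).1, (hgx y i' hy).1] at this
      exact zero_ne_one this
    · exfalso
      have := hj (Sum.inl i)
      rw [hgz y hy, (hgx x i hx).1] at this
      exact one_ne_zero this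
    · exfalso
      have := hj (Sum.inl i)
      rw [(hgp y δ' hδa' hy).1, (hgx x i hx).1] at this
      exact one_ne_zero this
    · rw [hx, hy]
      by_cases h : i = i'
      · rw [h]
      · exfalso
        have := hj (Sum.inl i)
        rw [(hgx x i hx).1, (hgx y i' hy).2.1 i h] at this
        exact one_ne_zero this
  · intro x
    have hfin : {j | g x j ≠ 0}.Finite := by
      rcases hmem x.1 x.2 with hx | ⟨δ, hδ, hδa, hx⟩ | ⟨i, hi, hx⟩
      · convert Set.finite_empty
        ext j
        simp [hgz x hx j]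
      · refine (Set.finite_singleton (Sum.inr δ)).subset ?_
        intro j hj
        rcases j with i | δ'
        · exact absurd ((hgp x δ hδa hx).1 i) hj
        · by_cases h : δ' = δ
          · rw [h]
            rfl
          · exact absurd ((hgp x δ hδa hx).2.2 δ' h) hj
      · have h3 : {δ | g x (Sum.inr δ) ≠ 0}.Subsingleton := by
          intro δ hδ δ' hδ'
          obtain ⟨h1, h2, n, hn, hn'⟩ := (hgx x i hx).2.2 δ hδ
          obtain ⟨h1', h2', m, hm, hm'⟩ := (hgx x i hx).2.2 δ' hδ'
          by_contra hne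
          exact hf δ h2 δ' h2' h1 h1' hne n hn m hm (hn'.trans hm'.symm)
        refine ((Set.finite_singleton (Sum.inl i)).union
          (h3.finite.image Sum.inr)).subset ?_
        intro j hj
        rcases j with k | δ'
        · left
          by_cases h : k = i
          · rw [h]
            rfl
          · exact absurd ((hgx x i hx).2.1 k h) hj
        · right
          exact ⟨δ', hj, rfl⟩
    refine tendsto_nhds_of_eventually_eq ?_
    rw [Filter.eventually_cofinite]
    exact hfin
  · intro x j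
    rcases j with i | δ
    · simp only [g, Sum.elim_inl]
      rcases hbrange ((x.1 : α ⊕ α → Bool) (Sum.inl i)) with h | h <;> rw [h] <;> simp
    · simp only [g, Sum.elim_inr]
      split_ifs with hδ
      · rw [abs_mul, Finset.abs_prod]
        have h1 : |bb ((x.1 : α ⊕ α → Bool) (Sum.inr δ))| ≤ 1 := by
          rcases hbrange ((x.1 : α ⊕ α → Bool) (Sum.inr δ)) with h | h <;> rw [h] <;> simp
        have h2 : ∏ n ∈ Finset.range (f δ), |1 - bb ((x.1 : α ⊕ α → Bool) (Sum.inl (l δ n)))|
            ≤ 1 := by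
          refine Finset.prod_le_one (fun n _ => abs_nonneg _) fun n _ => ?_
          rcases hbrange ((x.1 : α ⊕ α → Bool) (Sum.inl (l δ n))) with h | h <;> rw [h] <;> simp
        calc _ ≤ (1 : ℝ) * 1 := mul_le_mul h1 h2
              (Finset.prod_nonneg fun n _ => abs_nonneg _) zero_le_one
          _ = 1 := one_mul 1
      · simp

/-- The ladder space on a stationary set does not embed in `c₀`. -/
theorem not_embeds {S : Set α} {l : α → ℕ → α} (hl : Ladder S l)
    (hreg : ∀ i : α, #(Set.Iic i) < cof α) (hα : ℵ₀ < cof α) (hS : IsStationary S) :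
    ¬ EmbedsC0 (LX S l) := by
  rintro ⟨Γ, f, hfc, hfi, hf0, -⟩
  let P : Set (α ⊕ α → Bool) := XX S l (fun _ => True)
  have hz : (z0 : α ⊕ α → Bool) ∈ XX S l (fun _ => True) := Or.inl rfl
  have hpt : ∀ δ ∈ S, (pt δ : α ⊕ α → Bool) ∈ XX S l (fun _ => True) := fun δ hδ =>
    Or.inr (Or.inl ⟨δ, hδ, trivial, rfl⟩)
  have hxi : ∀ i, xi S l i ∈ XX S l (fun _ => True) := fun i => Or.inr (Or.inr ⟨i, trivial, rfl⟩)
  let Z : LX S l := ⟨z0, hz⟩
  -- separation of the limit points from infinity
  have hsep : ∀ δ, ∃ (γ : Γ) (m : ℕ), ∀ hδ : δ ∈ S,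
      1 / ((m : ℝ) + 1) < |f ⟨pt δ, hpt δ hδ⟩ γ - f Z γ| := by
    intro δ
    by_cases hδ : δ ∈ S
    · have hne : f ⟨pt δ, hpt δ hδ⟩ ≠ f Z := by
        intro h
        have h2 := congrArg Subtype.val (hfi h)
        have h3 : (pt δ : α ⊕ α → Bool) (Sum.inr δ) = false := by
          change pt δ = z0 at h2
          rw [h2]
          rfl
        have h4 : (pt δ : α ⊕ α → Bool) (Sum.inr δ) = true := by simp
        rw [h3] at h4
        exact Bool.false_ne_true h4
      obtain ⟨γ, hγ⟩ := Function.ne_iff.1 hne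
      obtain ⟨m, hm⟩ := exists_nat_one_div_lt (abs_pos.2 (sub_ne_zero.2 hγ))
      exact ⟨γ, m, fun _ => hm⟩
    · obtain ⟨γ⟩ : Nonempty Γ := by
        by_contra hempty
        rw [not_nonempty_iff] at hempty
        obtain ⟨δ0, hδ0⟩ := hS.nonempty
        have := hfi (a₁ := ⟨pt δ0, hpt δ0 hδ0⟩) (a₂ := Z) (funext fun γ => hempty.elim γ)
        have h2 := congrArg Subtype.val this
        have h3 : (pt δ0 : α ⊕ α → Bool) (Sum.inr δ0) = false := by
          change pt δ0 = z0 at h2
          rw [h2]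
          rfl
        have h4 : (pt δ0 : α ⊕ α → Bool) (Sum.inr δ0) = true := by simp
        rw [h3] at h4
        exact Bool.false_ne_true h4
      exact ⟨γ, 0, fun h => absurd h hδ⟩
  choose γ m hγ using hsep
  -- ladder points converge
  have hconv : ∀ δ (hδ : δ ∈ S), Tendsto (fun n => (⟨xi S l (l δ n), hxi _⟩ : LX S l)) atTop
      (nhds ⟨pt δ, hpt δ hδ⟩) := by
    intro δ hδ
    rw [tendsto_subtype_rng, tendsto_pi_nhds]
    intro j
    refine tendsto_nhds_of_eventually_eq ?_
    rcases j with k | δ'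
    · -- at most one n with l δ n = k
      by_cases hk : ∃ n, l δ n = k
      · obtain ⟨n, hn⟩ := hk
        filter_upwards [eventually_gt_atTop n] with n' hn'
        change xi S l (l δ n') (Sum.inl k) = pt δ (Sum.inl k)
        rw [pt_inl, Bool.eq_false_iff]
        intro h
        rw [xi_inl] at h
        rw [← hn] at h
        exact absurd ((hl.mono δ hδ).injective h) hn'.ne
      · filter_upwards with n'
        change xi S l (l δ n') (Sum.inl k) = pt δ (Sum.inl k)
        rw [pt_inl, Bool.eq_false_iff]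
        intro h
        rw [xi_inl] at h
        exact hk ⟨n', h.symm⟩
    · by_cases hd : δ' = δ
      · subst hd
        filter_upwards with n'
        change xi S l (l δ' n') (Sum.inr δ') = pt δ' (Sum.inr δ')
        have h1 : xi S l (l δ' n') (Sum.inr δ') = true := by
          rw [xi_inr]
          exact ⟨hδ, n', rfl⟩
        rw [h1]
        exact (by simp : pt δ' (Sum.inr δ') = true).symm
      · have hf : pt δ (Sum.inr δ') = false := by
          rw [Bool.eq_false_iff]
          intro h
          rw [pt_inr] at h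
          exact hd h
        by_cases hS' : δ' ∈ S
        · have hfin := inter_finite hl hδ hS' (Ne.symm hd)
          have hfin2 : {n | ∃ k, l δ' k = l δ n}.Finite := by
            refine Set.Finite.subset (hfin.preimage ((hl.mono δ hδ).injective.injOn)) ?_
            rintro n ⟨k, hk⟩
            exact ⟨⟨n, rfl⟩, ⟨k, hk⟩⟩
          have hev : ∀ᶠ n in atTop, ¬ ∃ k, l δ' k = l δ n := by
            rw [← Nat.cofinite_eq_atTop, Filter.eventually_cofinite]
            simpa using hfin2
          filter_upwards [hev] with n hn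
          change xi S l (l δ n) (Sum.inr δ') = pt δ (Sum.inr δ')
          rw [hf, Bool.eq_false_iff]
          intro h
          rw [xi_inr] at h
          exact hn h.2
        · filter_upwards with n
          change xi S l (l δ n) (Sum.inr δ') = pt δ (Sum.inr δ')
          rw [hf, Bool.eq_false_iff]
          intro h
          rw [xi_inr] at h
          exact hS' h.1
  have hnb : ∀ δ, ∃ i, δ ∈ S → (i < δ ∧
      1 / ((m δ : ℝ) + 1) < |f ⟨xi S l i, hxi i⟩ (γ δ) - f Z (γ δ)|) := by
    intro δ
    by_cases hδ : δ ∈ S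
    · have h1 : Tendsto (fun n => |f ⟨xi S l (l δ n), hxi _⟩ (γ δ) - f Z (γ δ)|) atTop
          (nhds (|f ⟨pt δ, hpt δ hδ⟩ (γ δ) - f Z (γ δ)|)) := by
        have h2 : Tendsto (fun n => f ⟨xi S l (l δ n), hxi _⟩ (γ δ)) atTop
            (nhds (f ⟨pt δ, hpt δ hδ⟩ (γ δ))) :=
          (((continuous_apply (γ δ)).comp hfc).tendsto _).comp (hconv δ hδ)
        exact (h2.sub_const _).abs
      obtain ⟨n, hn⟩ := (h1.eventually (lt_mem_nhds (hγ δ hδ))).exists
      exact ⟨l δ n, fun _ => ⟨hl.lt δ hδ n, hn⟩⟩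
    · exact ⟨δ, fun h => absurd h hδ⟩
  choose h hh using hnb
  -- fix m
  have hm1 : S = ⋃ k : ℕ, {δ | δ ∈ S ∧ m δ = k} := by
    ext δ
    simp
  have hm2 : ∃ k : ℕ, IsStationary {δ | δ ∈ S ∧ m δ = k} := by
    rw [← isStationary_iUnion_iff_of_countable hα.ne', ← hm1]
    exact hS
  obtain ⟨k, hk⟩ := hm2
  obtain ⟨i, hi⟩ := fodor hreg hα hk h (fun δ hδ => (hh δ hδ.1).1)
  -- finitely many coordinates
  have hfin : {g : Γ | 1 / ((k : ℝ) + 1) < |f ⟨xi S l i, hxi i⟩ g - f Z g|}.Finite := by
    have h1 : Tendsto (fun g => |f ⟨xi S l i, hxi i⟩ g - f Z g|) cofinite (nhds 0) := by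
      have h2 := (hf0 ⟨xi S l i, hxi i⟩).sub (hf0 Z)
      simpa using h2.abs
    have h3 := h1.eventually (gt_mem_nhds (show (0 : ℝ) < 1 / ((k : ℝ) + 1) by positivity))
    rw [Filter.eventually_cofinite] at h3
    refine h3.subset fun g hg => ?_
    exact not_lt.2 (le_of_lt hg)
  have hU : {δ | (δ ∈ S ∧ m δ = k) ∧ h δ = i} ⊆
      ⋃ g : {g : Γ | 1 / ((k : ℝ) + 1) < |f ⟨xi S l i, hxi i⟩ g - f Z g|},
        {δ | ((δ ∈ S ∧ m δ = k) ∧ h δ = i) ∧ γ δ = g} := by
    rintro δ ⟨⟨h1, h2⟩, h3⟩
    refine mem_iUnion.2 ⟨⟨γ δ, ?_⟩, ⟨⟨h1, h2⟩, h3⟩, rfl⟩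
    have h4 := (hh δ h1).2
    rw [h2] at h4
    subst h3
    exact h4
  have hst := hi.mono hU
  haveI : Countable {g : Γ | 1 / ((k : ℝ) + 1) < |f ⟨xi S l i, hxi i⟩ g - f Z g|} :=
    hfin.countable
  rw [isStationary_iUnion_iff_of_countable hα.ne'] at hst
  obtain ⟨g, hg⟩ := hst
  -- stationary many limit points far from Z in the coordinate g
  have hclosed : IsClosed {x : LX S l | 1 / ((k : ℝ) + 1) ≤ |f x g - f Z g|} := by
    have h1 : Continuous fun x : LX S l => |f x g - f Z g| := by
      have h2 : Continuous fun x : LX S l => f x (g : Γ) := (continuous_apply (g : Γ)).comp hfc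
      exact (h2.sub continuous_const).abs
    exact isClosed_le continuous_const h1
  have hunb : ¬ {δ | ((δ ∈ S ∧ m δ = k) ∧ h δ = i) ∧ γ δ = g}.Finite := by
    intro hfin2
    -- a finite set is bounded, hence not stationary
    have hlt : #{δ | ((δ ∈ S ∧ m δ = k) ∧ h δ = i) ∧ γ δ = (g : Γ)} < cof α :=
      (Cardinal.lt_aleph0_iff_finite.2 hfin2).trans hα
    obtain ⟨b, hb⟩ := exists_upper hlt
    have hclub : IsClub (Set.Ioi b) := by
      have hmax : ∀ a : α, ∃ b, a < b := by
        intro a
        by_contra! h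
        have h1 : IsCofinal ({a} : Set α) := fun x => ⟨a, rfl, h x⟩
        have h2 := cof_le h1
        rw [mk_singleton] at h2
        exact absurd (hα.trans_le h2) (not_lt.2 Cardinal.one_lt_aleph0.le)
      refine ⟨?_, fun a => ?_⟩
      · intro t ht hne hdir x hx
        obtain ⟨y, hy⟩ := hne
        exact lt_of_lt_of_le (ht hy) (hx.1 hy)
      · obtain ⟨c, hc⟩ := hmax (max a b)
        exact ⟨c, lt_of_le_of_lt (le_max_right _ _) hc, (le_max_left _ _).trans hc.le⟩
    obtain ⟨x, hx1, hx2⟩ := hg hclub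
    exact absurd (hb x hx1) (not_le.2 hx2)
  -- Z is in the closure of these points
  have hZ : Z ∈ closure {x : LX S l | 1 / ((k : ℝ) + 1) ≤ |f x g - f Z g|} := by
    rw [closure_subtype]
    rw [mem_closure_iff]
    intro o ho hzo
    -- a basic neighbourhood
    obtain ⟨F, u, hF1, hF2⟩ := isOpen_pi_iff.1 ho _ hzo
    have hinf : ({δ | ((δ ∈ S ∧ m δ = k) ∧ h δ = i) ∧ γ δ = g} \
        {δ | Sum.inr δ ∈ F}).Nonempty := by
      refine Set.Infinite.nonempty ?_
      refine Set.Infinite.diff hunb ?_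
      exact F.finite_toSet.preimage (Sum.inr_injective.injOn)
    obtain ⟨δ, ⟨⟨⟨h1, h2⟩, h3⟩, h4⟩, h5⟩ := hinf
    refine ⟨pt δ, hF2 ?_, ⟨⟨pt δ, hpt δ h1⟩, ?_, rfl⟩⟩
    · intro j hj
      have h6 : pt δ j = z0 j := by
        rcases j with i' | δ'
        · rfl
        · change pt δ (Sum.inr δ') = false
          rw [Bool.eq_false_iff]
          intro h
          rw [pt_inr] at h
          subst h
          exact h5 hj
      rw [h6]
      exact (hF1 j hj).2
    · have h7 := hγ δ h1
      rw [h2] at h7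
      rw [h4] at h7
      exact h7.le
  rw [hclosed.closure_eq] at hZ
  simp only [mem_setOf_eq, sub_self, abs_zero] at hZ
  have : (0 : ℝ) < 1 / ((k : ℝ) + 1) := by positivity
  linarith

end

end Pool.Agent.Helper93.EC
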