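import Pool.Agent.Helper93.EC.Measure

/-!
# Tightness from normal fine measures
-/

set_option autoImplicit false

open Set Cardinal Topology Filter MeasureTheory

namespace Pool.Agent.Helper93.EC

variable {X : Type} [TopologicalSpace X] [CompactSpace X] [T2Space X]

/-- All closures of small sets embed in a `c₀(Γ)`. -/
def SmallEmb (X : Type) [TopologicalSpace X] : Prop :=
  ∀ A : Set X, #A ≤ 𝔠 → EmbedsC0 (closure A)

theorem exists_limit_point {B : Set X} {x : X} (A : Set (X ⊕ C(X, ℝ)))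
    (h : Finset C(X, ℝ) → ℕ → X) (hB : ∀ F n, h F n ∈ B)
    (hf : ∀ (F : Finset C(X, ℝ)) (n : ℕ), ∀ f ∈ F, |f (h F n) - f x| ≤ 1 / ((n : ℝ) + 1))
    (hA : ∀ n : ℕ, ∀ F : Finset C(X, ℝ), (∀ f ∈ F, Sum.inr f ∈ A) → Sum.inl (h F n) ∈ A) :
    ∃ z ∈ closure {y | y ∈ B ∧ Sum.inl y ∈ A}, ∀ f : C(X, ℝ), Sum.inr f ∈ A → f z = f x := by
  classical
  let E : Set X := {y | y ∈ B ∧ Sum.inl y ∈ A}
  let I := {F : Finset C(X, ℝ) // ∀ f ∈ F, Sum.inr f ∈ A} × ℕ
  let K : I → Set X := fun i =>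
    closure E ∩ {z | ∀ f ∈ i.1.1, |f z - f x| ≤ 1 / ((i.2 : ℝ) + 1)}
  have hcl : ∀ i, IsClosed (K i) := by
    intro i
    refine isClosed_closure.inter ?_
    have : {z | ∀ f ∈ i.1.1, |f z - f x| ≤ 1 / ((i.2 : ℝ) + 1)} =
        ⋂ f ∈ i.1.1, {z : X | |f z - f x| ≤ 1 / ((i.2 : ℝ) + 1)} := by
      ext z
      simp
    rw [this]
    refine isClosed_biInter fun f _ => ?_
    exact isClosed_le (f.continuous.sub continuous_const).abs continuous_const
  have hne : ∀ i, (K i).Nonempty := by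
    intro i
    refine ⟨h i.1.1 i.2, subset_closure ⟨hB _ _, hA _ _ i.1.2⟩, ?_⟩
    intro f hfF
    exact hf _ _ f hfF
  have hdir : Directed (· ⊇ ·) K := by
    intro i j
    refine ⟨(⟨i.1.1 ∪ j.1.1, ?_⟩, max i.2 j.2), ?_, ?_⟩
    · intro f hfu
      rcases Finset.mem_union.1 hfu with h1 | h1
      · exact i.1.2 f h1
      · exact j.1.2 f h1
    · rintro z ⟨hz1, hz2⟩
      refine ⟨hz1, fun f hff => (hz2 f (Finset.mem_union_left _ hff)).trans ?_⟩
      apply one_div_le_one_div_of_le (by positivity)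
      have : ((i.2 : ℕ) : ℝ) ≤ ((max i.2 j.2 : ℕ) : ℝ) := by exact_mod_cast le_max_left _ _
      linarith
    · rintro z ⟨hz1, hz2⟩
      refine ⟨hz1, fun f hff => (hz2 f (Finset.mem_union_right _ hff)).trans ?_⟩
      apply one_div_le_one_div_of_le (by positivity)
      have : ((j.2 : ℕ) : ℝ) ≤ ((max i.2 j.2 : ℕ) : ℝ) := by exact_mod_cast le_max_right _ _
      linarith
  have hIne : Nonempty I := ⟨(⟨∅, by simp⟩, 0)⟩
  obtain ⟨z, hz⟩ := IsCompact.nonempty_iInter_of_directed_nonempty_isCompact_isClosed K hdir hne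
    (fun i => (hcl i).isCompact) hcl
  rw [mem_iInter] at hz
  refine ⟨z, (hz hIne.some).1, fun f hfA => ?_⟩
  have h1 : ∀ n : ℕ, |f z - f x| ≤ 1 / ((n : ℝ) + 1) := by
    intro n
    exact (hz (⟨{f}, by simpa using hfA⟩, n)).2 f (Finset.mem_singleton_self f)
  by_contra hne'
  have hpos : 0 < |f z - f x| := abs_pos.2 (sub_ne_zero.2 hne')
  obtain ⟨n, hn⟩ := exists_nat_one_div_lt hpos
  exact absurd (h1 n) (not_le.2 hn)

/-- Countable tightness. -/
theorem tight (hm : ∀ T : Type, ∃ μ : Measure (PS T), NF μ) (hX : SmallEmb X) {B : Set X} {x : X}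
    (hx : x ∈ closure B) : ∃ D ⊆ B, D.Countable ∧ x ∈ closure D := by
  classical
  obtain ⟨μ, hμ⟩ := hm (X ⊕ C(X, ℝ))
  have hp := hμ.prob
  have hpick : ∀ (F : Finset C(X, ℝ)) (n : ℕ), ∃ y ∈ B,
      ∀ f ∈ F, |f y - f x| ≤ 1 / ((n : ℝ) + 1) := by
    intro F n
    have hopen : IsOpen {y : X | ∀ f ∈ F, |f y - f x| < 1 / ((n : ℝ) + 1)} := by
      have : {y : X | ∀ f ∈ F, |f y - f x| < 1 / ((n : ℝ) + 1)} =
          ⋂ f ∈ F, {y : X | |f y - f x| < 1 / ((n : ℝ) + 1)} := by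
        ext y
        simp
      rw [this]
      refine isOpen_biInter_finset fun f _ => ?_
      exact isOpen_lt (f.continuous.sub continuous_const).abs continuous_const
    obtain ⟨y, hy1, hy2⟩ := mem_closure_iff.1 hx _ hopen (by
      intro f _
      rw [sub_self, abs_zero]
      positivity)
    exact ⟨y, hy2, fun f hf => (hy1 f hf).le⟩
  choose h hB hh using hpick
  have hclosed : ∀ᵐ (A : PS (X ⊕ C(X, ℝ))) ∂μ, ∀ n : ℕ, ∀ F : Finset (X ⊕ C(X, ℝ)),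
      (↑F : Set (X ⊕ C(X, ℝ))) ⊆ A.el →
      Sum.inl (h (F.preimage Sum.inr Sum.inr_injective.injOn) n) ∈ A.el := by
    rw [ae_all_iff]
    intro n
    exact hμ.closed_op (fun F => Sum.inl (h (F.preimage Sum.inr Sum.inr_injective.injOn) n))
  let G : Set (PS (X ⊕ C(X, ℝ))) := {A | #A.el ≤ 𝔠 ∧ ∀ n : ℕ, ∀ F : Finset (X ⊕ C(X, ℝ)),
      (↑F : Set (X ⊕ C(X, ℝ))) ⊆ A.el →
      Sum.inl (h (F.preimage Sum.inr Sum.inr_injective.injOn) n) ∈ A.el}
  have hG : ∀ᵐ (A : PS (X ⊕ C(X, ℝ))) ∂μ, A ∈ G := by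
    filter_upwards [hclosed, hμ.small] with A h1 h2
    exact ⟨h2, h1⟩
  have key : ∀ A ∈ G, ∃ d : ℕ → X, (∀ n, d n ∈ B ∧ Sum.inl (d n) ∈ A.el) ∧
      ∃ z ∈ closure (range d), ∀ f : C(X, ℝ), Sum.inr f ∈ A.el → f z = f x := by
    intro A hA
    obtain ⟨z, hz1, hz2⟩ := exists_limit_point (B := B) (x := x) A.el h hB hh (by
      intro n F hF
      have h1 := hA.2 n (F.map ⟨Sum.inr, Sum.inr_injective⟩) (by
        intro t ht
        rw [Finset.coe_map] at ht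
        obtain ⟨f, hf, rfl⟩ := ht
        exact hF f hf)
      have h2 : (F.map ⟨Sum.inr, Sum.inr_injective⟩).preimage (Sum.inr : C(X, ℝ) → X ⊕ C(X, ℝ))
          Sum.inr_injective.injOn = F := by
        ext f
        simp
      rw [h2] at h1
      exact h1)
    have hcard : #{y | y ∈ B ∧ Sum.inl y ∈ A.el} ≤ 𝔠 := by
      refine le_trans ?_ hA.1
      refine Cardinal.mk_le_of_injective
        (f := fun y : {y | y ∈ B ∧ Sum.inl y ∈ A.el} => (⟨Sum.inl y.1, y.2.2⟩ : A.el)) ?_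
      intro a b hab
      have := congrArg Subtype.val hab
      exact Subtype.ext (Sum.inl_injective this)
    obtain ⟨D, hDsub, hDc, hDz⟩ := countable_of_embeds (hX _ hcard) hz1
    have hDne : D.Nonempty := by
      by_contra hemp
      rw [not_nonempty_iff_eq_empty] at hemp
      rw [hemp, closure_empty] at hDz
      exact hDz
    obtain ⟨d, hd⟩ := hDc.exists_eq_range hDne
    refine ⟨d, fun n => hDsub (hd ▸ mem_range_self n), z, hd ▸ hDz, hz2⟩
  have hxB : ∃ b, b ∈ B := by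
    obtain ⟨y, -, hy⟩ := mem_closure_iff.1 hx univ isOpen_univ (mem_univ x)
    exact ⟨y, hy⟩
  obtain ⟨b0, hb0⟩ := hxB
  have key' : ∀ A : PS (X ⊕ C(X, ℝ)), ∃ d : ℕ → X, A ∈ G → ((∀ n, d n ∈ B ∧ Sum.inl (d n) ∈ A.el) ∧
      ∃ z ∈ closure (range d), ∀ f : C(X, ℝ), Sum.inr f ∈ A.el → f z = f x) := by
    intro A
    by_cases hA : A ∈ G
    · obtain ⟨d, hd⟩ := key A hA
      exact ⟨d, fun _ => hd⟩
    · exact ⟨fun _ => b0, fun h => absurd h hA⟩
  choose d hd using key'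
  have hval : ∀ n : ℕ, ∃ V : Set (X ⊕ C(X, ℝ)), V.Countable ∧
      μ {A | A ∈ G ∧ Sum.inl (d A n) ∉ V} = 0 := fun n =>
    hμ.countable_values G (fun A => Sum.inl (d A n)) (fun A hA => ((hd A hA).1 n).2)
  choose V hV1 hV2 using hval
  let D : Set X := {y | y ∈ B ∧ ∃ n, Sum.inl y ∈ V n}
  have hDc : D.Countable := by
    have h1 : (⋃ n, (Sum.inl ⁻¹' (V n) : Set X)).Countable :=
      Set.countable_iUnion fun n => (hV1 n).preimage Sum.inl_injective
    refine h1.mono ?_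
    rintro y ⟨-, n, hn⟩
    exact mem_iUnion.2 ⟨n, hn⟩
  refine ⟨D, fun y hy => hy.1, hDc, ?_⟩
  by_contra hxD
  obtain ⟨f, hf0, hf1, -⟩ := exists_continuous_zero_one_of_isClosed (isClosed_closure (s := D))
    (isClosed_singleton (x := x)) (by
      rw [Set.disjoint_singleton_right]
      exact hxD)
  have hae : ∀ᵐ (A : PS (X ⊕ C(X, ℝ))) ∂μ, A ∈ G ∧ Sum.inr f ∈ A.el ∧
      ∀ n, ¬ (A ∈ G ∧ Sum.inl (d A n) ∉ V n) := by
    have h3 : ∀ᵐ (A : PS (X ⊕ C(X, ℝ))) ∂μ, ∀ n, ¬ (A ∈ G ∧ Sum.inl (d A n) ∉ V n) := by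
      rw [ae_all_iff]
      intro n
      rw [ae_iff]
      simpa using hV2 n
    filter_upwards [hG, hμ.fine (Sum.inr f), h3] with A h1 h2 h3
    exact ⟨h1, h2, h3⟩
  obtain ⟨A, hAG, hAf, hAV⟩ := hae.exists
  obtain ⟨h1, z, hz1, hz2⟩ := hd A hAG
  have hsub : range (d A) ⊆ D := by
    rintro _ ⟨n, rfl⟩
    refine ⟨(h1 n).1, n, ?_⟩
    by_contra hcon
    exact hAV n ⟨hAG, hcon⟩
  have e1 : f z = f x := hz2 f hAf
  have e2 : f z = 0 := hf0 (closure_mono hsub hz1)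
  have e3 : f x = 1 := hf1 rfl
  rw [e2, e3] at e1
  exact zero_ne_one e1

theorem frechet (hm : ∀ T : Type, ∃ μ : Measure (PS T), NF μ) (hX : SmallEmb X) :
    FrechetUrysohnSpace X := by
  refine ⟨fun B x hx => ?_⟩
  obtain ⟨D, hDB, hDc, hxD⟩ := tight hm hX hx
  have hcard : #D ≤ 𝔠 := (Cardinal.le_aleph0_iff_set_countable.2 hDc).trans
    Cardinal.aleph0_le_continuum
  obtain ⟨d, hd1, hd2⟩ := seq_of_embeds hDc (hX D hcard) hxD
  exact ⟨d, fun n => hDB (hd1 n), hd2⟩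

end Pool.Agent.Helper93.EC
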